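import Pool.Agent.Q198.Moat.Shortcut

/-!
# The conformally flat disc without isometric immersion
-/

set_option autoImplicit false

open Set Filter Topology
open scoped ContDiff

noncomputable section

namespace Q198.Moat

/-- a bump equal to one on the closed unit disc and to zero outside the disc of radius
`1 + ε² / 32` -/
def bump (ε : ℝ) (hε : 0 < ε) : ContDiffBump (0 : ℂ) where
  rIn := 1
  rOut := 1 + ε ^ 2 / 32
  rIn_pos := zero_lt_one
  rIn_lt_rOut := by nlinarith

/-- the conformal factor: equal to one on the unit disc, and to `1 - ε` away from it -/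
def rho (ε : ℝ) (hε : 0 < ε) (z : ℂ) : ℝ := (1 - ε) + ε * bump ε hε z

variable {ε : ℝ} (hε : 0 < ε)

theorem rho_smooth : ContDiff ℝ ∞ (rho ε hε) :=
  contDiff_const.add (contDiff_const.mul (bump ε hε).contDiff)

theorem rho_one {z : ℂ} (hz : ‖z‖ ≤ 1) : rho ε hε z = 1 := by
  have : bump ε hε z = 1 := (bump ε hε).one_of_mem_closedBall (by
    rw [mem_closedBall_zero_iff]; exact hz)
  rw [rho, this]; ring

theorem rho_out {z : ℂ} (hz : 1 + ε ^ 2 / 32 ≤ ‖z‖) : rho ε hε z = 1 - ε := by
  have : bump ε hε z = 0 := (bump ε hε).zero_of_le_dist (by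
    rw [dist_zero_right]; exact hz)
  rw [rho, this]; ring

theorem rho_le (z : ℂ) : rho ε hε z ≤ 1 := by
  have := (bump ε hε).le_one (x := z)
  rw [rho]; nlinarith

theorem le_rho (z : ℂ) : 1 - ε ≤ rho ε hε z := by
  have := (bump ε hε).nonneg (x := z)
  rw [rho]; nlinarith

theorem rho_sq_smooth (c : ℝ) : ContDiff ℝ ∞ (fun z : ℂ => rho ε hε (c • z) ^ 2) := by
  have h1 : ContDiff ℝ ∞ (fun z : ℂ => c • z) := contDiff_id.const_smul c
  have h2 : ContDiff ℝ ∞ (fun z : ℂ => rho ε hε (c • z)) := (rho_smooth hε).comp h1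
  exact h2.pow 2

/-- a cutoff -/
def cut : ContDiffBump (0 : ℂ) where
  rIn := 2
  rOut := 5 / 2
  rIn_pos := by norm_num
  rIn_lt_rOut := by norm_num

variable {V : Type*} [NormedAddCommGroup V] [InnerProductSpace ℝ V]

/-- The disc of radius `3` with the conformally flat metric `ρ² |dz|²` has no isometric
immersion into a three-dimensional Euclidean space. -/
theorem plane_false (hV : Module.finrank ℝ V = 3) (hε1 : ε ≤ 1) {F₀ : ℂ → V}
    (hF : ContDiffOn ℝ 4 F₀ (Metric.ball 0 3))
    (hiso : ∀ z ∈ Metric.ball (0 : ℂ) 3, ∀ v w : ℂ,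
      inner ℝ (fderiv ℝ F₀ z v) (fderiv ℝ F₀ z w) = rho ε hε z ^ 2 * inner ℝ v w) : False := by
  set F : ℂ → V := fun z => cut z • F₀ z with hFdef
  have hsm : ContDiff ℝ 4 F := by
    rw [contDiff_iff_contDiffAt]
    intro z
    by_cases hz : z ∈ Metric.ball (0 : ℂ) 3
    · exact (cut.contDiff.contDiffAt).smul ((hF z hz).contDiffAt (Metric.isOpen_ball.mem_nhds hz))
    · have h1 : F =ᶠ[𝓝 z] fun _ => 0 := by
        have h2 : z ∈ (Metric.closedBall (0 : ℂ) (5 / 2))ᶜ := by
          rw [mem_compl_iff, mem_closedBall_zero_iff]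
          rw [mem_ball_zero_iff] at hz
          linarith
        filter_upwards [Metric.isClosed_closedBall.isOpen_compl.mem_nhds h2] with y hy
        have : cut y = 0 := cut.zero_of_le_dist (by
          rw [dist_zero_right]
          rw [mem_compl_iff, mem_closedBall_zero_iff] at hy
          change 5 / 2 ≤ ‖y‖
          linarith)
        rw [hFdef]
        simp only
        rw [this, zero_smul]
      exact contDiffAt_const.congr_of_eventuallyEq h1
  have hfd : ∀ z : ℂ, ‖z‖ < 2 → fderiv ℝ F z = fderiv ℝ F₀ z := by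
    intro z hz
    apply Filter.EventuallyEq.fderiv_eq
    filter_upwards [Metric.isOpen_ball.mem_nhds (mem_ball_zero_iff.2 hz)] with y hy
    have : cut y = 1 := cut.one_of_mem_closedBall (Metric.ball_subset_closedBall hy)
    rw [hFdef]
    simp only
    rw [this, one_smul]
  have hδ : 1 + ε ^ 2 / 32 < 2 := by nlinarith
  have hnorm : ∀ z : ℂ, ‖z‖ < 2 → ∀ v : ℂ, ‖fderiv ℝ F z v‖ = rho ε hε z * ‖v‖ := by
    intro z hz v
    have h1 := hiso z (mem_ball_zero_iff.2 (by linarith)) v v
    rw [← hfd z hz, real_inner_self_eq_norm_sq, real_inner_self_eq_norm_sq, ← mul_pow] at h1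
    have h2 : 0 ≤ rho ε hε z := by linarith [le_rho hε z]
    exact (pow_left_inj₀ (norm_nonneg _) (by positivity) two_ne_zero).1 h1
  have hM : MoatMap (1 - ε) (ε ^ 2 / 32) F :=
    { smooth := hsm
      iso := by
        intro z hz v w
        rw [mem_closedBall_zero_iff] at hz
        rw [hfd z (by linarith), hiso z (mem_ball_zero_iff.2 (by linarith)), rho_one hε hz]
        ring
      short := by
        intro z hz v
        rw [hnorm z (by linarith)]
        have := rho_le hε z
        have := norm_nonneg v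
        nlinarith
      shorter := by
        intro z hz v
        rw [hnorm z (by linarith), rho_out hε hz.ge] }
  exact MoatMap.false hV hε hε1 hM

end Q198.Moat
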