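import Pool.Agent.Q198.Moat.Near
import Pool.Agent.Q198.Moat.Plane

/-!
# Every metric on a surface is a `C⁰` limit of metrics without isometric immersion into `ℝ³`
-/

set_option autoImplicit false

open Set Filter Topology Bundle Manifold
open scoped Manifold ContDiff

noncomputable section

namespace Q198.Moat

set_option maxSynthPendingDepth 3
set_option linter.unusedSectionVars false

variable {E : Type*} [NormedAddCommGroup E] [NormedSpace ℝ E] [FiniteDimensional ℝ E]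
  {H : Type*} [TopologicalSpace H] {I : ModelWithCorners ℝ E H}
  {M : Type*} [TopologicalSpace M] [ChartedSpace H M] [IsManifold I ∞ M]
  {V : Type*} [NormedAddCommGroup V] [InnerProductSpace ℝ V]

/-- the affine coordinate at `x₀` -/
def coord (A : E ≃L[ℝ] ℂ) (x₀ : M) (x : M) : ℂ := A (extChartAt I x₀ x - extChartAt I x₀ x₀)

/-- its inverse -/
def param (A : E ≃L[ℝ] ℂ) (x₀ : M) (z : ℂ) : M :=
  (extChartAt I x₀).symm (extChartAt I x₀ x₀ + A.symm z)

variable (I) in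
theorem coord_smooth (A : E ≃L[ℝ] ℂ) (x₀ : M) :
    ContMDiffOn I 𝓘(ℝ, ℂ) ∞ (coord (I := I) A x₀) (chartAt H x₀).source := by
  have h1 : ContMDiffOn I 𝓘(ℝ, E) ∞ (extChartAt I x₀) (chartAt H x₀).source :=
    contMDiffOn_extChartAt
  have h2 : ContMDiff 𝓘(ℝ, E) 𝓘(ℝ, ℂ) ∞ (fun y : E => A (y - extChartAt I x₀ x₀)) := by
    apply ContDiff.contMDiff
    exact A.contDiff.comp (contDiff_id.sub contDiff_const)
  exact h2.comp_contMDiffOn h1

variable (I) in
theorem coord_deriv (A : E ≃L[ℝ] ℂ) (x₀ : M) {x : M} (hx : x ∈ (chartAt H x₀).source)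
    (v : TangentSpace I x) :
    dM I (coord (I := I) A x₀) x v = A (dchart I x₀ x v) := by
  have h1 : MDifferentiableAt I 𝓘(ℝ, E) (extChartAt I x₀) x := mdifferentiableAt_extChartAt hx
  have h2 : HasMFDerivAt 𝓘(ℝ, E) 𝓘(ℝ, ℂ) (fun y : E => A (y - extChartAt I x₀ x₀))
      (extChartAt I x₀ x) (A : E →L[ℝ] ℂ) := by
    apply HasFDerivAt.hasMFDerivAt
    exact (A : E →L[ℝ] ℂ).hasFDerivAt.comp _ ((hasFDerivAt_id _).sub_const _)
  have h3 := h2.comp x h1.hasMFDerivAt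
  have h4 : dM I (coord (I := I) A x₀) x = (A : E →L[ℝ] ℂ).comp (dchart I x₀ x) :=
    h3.mfderiv
  rw [h4]
  rfl

variable (I) in
theorem param_zero (A : E ≃L[ℝ] ℂ) (x₀ : M) : param (I := I) A x₀ 0 = x₀ := by
  unfold param
  rw [map_zero, add_zero]
  exact extChartAt_to_inv x₀

section

variable [I.Boundaryless]

variable (I) in
theorem target_nhds (A : E ≃L[ℝ] ℂ) (x₀ : M) :
    ∀ᶠ z in 𝓝 (0 : ℂ), extChartAt I x₀ x₀ + A.symm z ∈ (extChartAt I x₀).target := by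
  have h1 : Continuous (fun z : ℂ => extChartAt I x₀ x₀ + A.symm z) := by fun_prop
  have h2 : (extChartAt I x₀).target ∈ 𝓝 (extChartAt I x₀ x₀ + A.symm 0) := by
    rw [map_zero, add_zero]
    exact extChartAt_target_mem_nhds x₀
  exact h1.continuousAt.eventually h2

variable (I) in
theorem param_smooth (A : E ≃L[ℝ] ℂ) (x₀ : M) {z : ℂ}
    (hz : extChartAt I x₀ x₀ + A.symm z ∈ (extChartAt I x₀).target) :
    ContMDiffAt 𝓘(ℝ, ℂ) I ∞ (param (I := I) A x₀) z := by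
  have h1 : ContMDiffAt 𝓘(ℝ, E) I ∞ (extChartAt I x₀).symm (extChartAt I x₀ x₀ + A.symm z) :=
    (contMDiffOn_extChartAt_symm x₀ _ hz).contMDiffAt
      ((isOpen_extChartAt_target x₀).mem_nhds hz)
  have h2 : ContMDiffAt 𝓘(ℝ, ℂ) 𝓘(ℝ, E) ∞ (fun z : ℂ => extChartAt I x₀ x₀ + A.symm z) z := by
    apply ContDiff.contMDiff
    exact contDiff_const.add A.symm.contDiff
  exact h1.comp z h2

theorem coord_param (A : E ≃L[ℝ] ℂ) (x₀ : M) {z : ℂ}
    (hz : extChartAt I x₀ x₀ + A.symm z ∈ (extChartAt I x₀).target) :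
    coord (I := I) A x₀ (param (I := I) A x₀ z) = z := by
  unfold coord param
  rw [(extChartAt I x₀).right_inv hz]
  simp

theorem main (hE : Module.finrank ℝ E = 2) [T2Space M] (x₀ : M) (g₀ : Met I M) {ε : ℝ}
    (hε : 0 < ε) (hε1 : ε ≤ 1) :
    ∃ g : Met I M, (∀ (x : M) (v : TangentSpace I x),
        |g.inner x v v - g₀.inner x v v| ≤ ε * g₀.inner x v v) ∧
      ∀ (V : Type) [NormedAddCommGroup V] [InnerProductSpace ℝ V], Module.finrank ℝ V = 3 →
        ∀ f : M → V, ContMDiff I 𝓘(ℝ, V) 4 f →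
        (∀ (x : M) (v w : TangentSpace I x), (inner ℝ (dM I f x v) (dM I f x w) : ℝ) =
          g.inner x v w) → False := by
  obtain ⟨A, hA⟩ := near hE g₀ x₀
  obtain ⟨ε₁, hε₁⟩ : ∃ ε₁ : ℝ, ε₁ = ε / 8 := ⟨_, rfl⟩
  have hε₁0 : 0 < ε₁ := by rw [hε₁]; positivity
  have hclose := hA ε₁ hε₁0
  -- the globally defined coordinate
  obtain ⟨χ₂, -, -⟩ := (SmoothBumpFunction.nhds_basis_tsupport (I := I) x₀).mem_iff.1
    (univ_mem : (univ : Set M) ∈ 𝓝 x₀)
  set Ψ : M → ℂ := fun x => χ₂ x • coord (I := I) A x₀ x with hΨ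
  have hΨs : ContMDiff I 𝓘(ℝ, ℂ) ∞ Ψ := χ₂.contMDiff_smul (coord_smooth I A x₀)
  have hW : ∀ᶠ x in 𝓝 x₀, (∀ v : TangentSpace I x,
      |g₀.inner x v v - ‖A (dchart I x₀ x v)‖ ^ 2| ≤ ε₁ * ‖A (dchart I x₀ x v)‖ ^ 2) ∧
      x ∈ (chartAt H x₀).source ∧ Ψ =ᶠ[𝓝 x] coord (I := I) A x₀ := by
    have h1 : ∀ᶠ x in 𝓝 x₀, χ₂ =ᶠ[𝓝 x] 1 := by
      have := χ₂.eventuallyEq_one
      exact eventually_eventually_nhds.2 this
    filter_upwards [hclose, chart_source_mem_nhds H x₀, h1] with x hx1 hx2 hx3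
    refine ⟨hx1, hx2, ?_⟩
    filter_upwards [hx3] with y hy
    rw [hΨ]
    simp only
    rw [hy]
    simp
  obtain ⟨χ, -, hχ⟩ := (SmoothBumpFunction.nhds_basis_tsupport (I := I) x₀).mem_iff.1 hW
  have hsupp : ∀ x, χ x ≠ 0 → (∀ v : TangentSpace I x,
      |g₀.inner x v v - ‖A (dchart I x₀ x v)‖ ^ 2| ≤ ε₁ * ‖A (dchart I x₀ x v)‖ ^ 2) ∧
      x ∈ (chartAt H x₀).source ∧ Ψ =ᶠ[𝓝 x] coord (I := I) A x₀ :=
    fun x hx => hχ (subset_tsupport _ hx)
  -- the size of the disc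
  have hη : ∃ r > 0, ∀ z : ℂ, ‖z‖ < r →
      extChartAt I x₀ x₀ + A.symm z ∈ (extChartAt I x₀).target ∧ χ (param (I := I) A x₀ z) = 1 := by
    have h0 : param (I := I) A x₀ 0 = x₀ := param_zero I A x₀
    have h1 : ContinuousAt (param (I := I) A x₀) 0 := by
      refine (param_smooth I A x₀ ?_).continuousAt
      rw [map_zero, add_zero]
      exact mem_extChartAt_target x₀
    have h2 : ∀ᶠ x in 𝓝 x₀, χ x = 1 := χ.eventuallyEq_one
    have h2' : ∀ᶠ x in 𝓝 (param (I := I) A x₀ 0), χ x = 1 := by rw [h0]; exact h2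
    have h3 : ∀ᶠ z in 𝓝 (0 : ℂ), χ (param (I := I) A x₀ z) = 1 := h1.eventually h2'
    obtain ⟨r, hr, hball⟩ := Metric.eventually_nhds_iff.1 ((target_nhds I A x₀).and h3)
    refine ⟨r, hr, fun z hz => hball ?_⟩
    rwa [dist_zero_right]
  obtain ⟨r, hr, hrad⟩ := hη
  obtain ⟨η, hη0, hηdef⟩ : ∃ η : ℝ, 0 < η ∧ 3 * η = r := ⟨r / 3, by positivity, by ring⟩
  -- the conformal factor on M
  obtain ⟨σ, hσ⟩ : ∃ σ : M → ℝ, σ = fun x => rho ε₁ hε₁0 (η⁻¹ • Ψ x) ^ 2 := ⟨_, rfl⟩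
  have hσs : ContMDiff I 𝓘(ℝ) ∞ σ := by
    rw [hσ]
    have h1 : ContMDiff 𝓘(ℝ, ℂ) 𝓘(ℝ) ∞ (fun z : ℂ => rho ε₁ hε₁0 (η⁻¹ • z) ^ 2) :=
      (rho_sq_smooth hε₁0 η⁻¹).contMDiff
    exact ContMDiff.comp h1 hΨs
  have hσlow : ∀ x, (1 - ε₁) ^ 2 ≤ σ x := by
    intro x
    rw [hσ]
    exact pow_le_pow_left₀ (by linarith) (le_rho hε₁0 _) 2
  have hσup : ∀ x, σ x ≤ 1 := by
    intro x
    have h1 := rho_le hε₁0 (η⁻¹ • Ψ x)
    have h2 := le_rho hε₁0 (η⁻¹ • Ψ x)
    rw [hσ]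
    simp only
    nlinarith
  have hχs : ContMDiff I 𝓘(ℝ) ∞ χ := χ.contMDiff
  have hpull : ∀ x, χ x ≠ 0 → ∀ v : TangentSpace I x,
      dM I Ψ x v = A (dchart I x₀ x v) := by
    intro x hx v
    obtain ⟨-, h2, h3⟩ := hsupp x hx
    rw [← coord_deriv I A x₀ h2 v]
    unfold dM
    rw [h3.mfderiv_eq]
  have hpullT : ∀ x, χ x ≠ 0 → ∀ v : TangentSpace I x,
      pbT I Ψ x v v = ‖A (dchart I x₀ x v)‖ ^ 2 := by
    intro x hx v
    rw [pbT_apply, hpull x hx, real_inner_self_eq_norm_sq]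
  have hpos : ∀ (x : M) (v : TangentSpace I x), v ≠ 0 →
      0 < (1 - χ x) * g₀.inner x v v + (χ x * σ x) * pbT I Ψ x v v := by
    intro x v hv
    have h0 := g₀.pos x v hv
    by_cases hx : χ x = 0
    · rw [hx]; simpa using h0
    · have h1 := (hsupp x hx).1 v
      rw [← hpullT x hx] at h1
      have h2 := abs_le.1 h1
      have h3 : 0 < pbT I Ψ x v v := by nlinarith [h2.2]
      have h4 : 0 < χ x := lt_of_le_of_ne χ.nonneg (Ne.symm hx)
      have h5 : 0 < σ x := lt_of_lt_of_le (by nlinarith [sq_nonneg (1 - ε₁)]) (hσlow x)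
      have h6 : 0 ≤ (1 - χ x) * g₀.inner x v v := mul_nonneg (by linarith [χ.le_one (x := x)]) h0.le
      have h7 : 0 < (χ x * σ x) * pbT I Ψ x v v := mul_pos (mul_pos h4 h5) h3
      linarith
  set g : Met I M := mix g₀ (fun x => 1 - χ x) (fun x => χ x * σ x)
    (contMDiff_const.sub hχs) (hχs.mul hσs) Ψ hΨs hpos with hg
  refine ⟨g, ?_, ?_⟩
  · intro x v
    rw [hg, mix_apply]
    have h0 : 0 ≤ g₀.inner x v v := by
      by_cases hv : v = 0
      · rw [hv]; simp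
      · exact (g₀.pos x v hv).le
    by_cases hx : χ x = 0
    · rw [hx]
      simp only [sub_zero, one_mul, zero_mul, add_zero, sub_self, abs_zero]
      positivity
    · have h1 := (hsupp x hx).1 v
      rw [← hpullT x hx] at h1
      obtain ⟨h2, h3⟩ := abs_le.1 h1
      set P := pbT I Ψ x v v with hP
      have hP0 : 0 ≤ P := by rw [hP, hpullT x hx]; positivity
      have h4 := hσlow x
      have h5 := hσup x
      have h6 := χ.nonneg (x := x)
      have h7 := χ.le_one (x := x)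
      have e1 : (1 - χ x) * g₀.inner x v v + χ x * σ x * P - g₀.inner x v v =
          χ x * (σ x * P - g₀.inner x v v) := by ring
      rw [e1, abs_mul, abs_of_nonneg h6]
      have h8 : 1 - 2 * ε₁ ≤ σ x := by nlinarith
      have h9 : |σ x * P - g₀.inner x v v| ≤ 3 * ε₁ * P := by
        rw [abs_le]
        constructor
        · nlinarith
        · nlinarith
      have h10 : (1 - ε₁) * P ≤ g₀.inner x v v := by linarith
      have h11 : 3 * ε₁ * P ≤ ε * g₀.inner x v v := by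
        have : 3 * ε₁ * P ≤ ε * ((1 - ε₁) * P) := by
          have h12 : 3 * ε₁ ≤ ε * (1 - ε₁) := by nlinarith
          calc 3 * ε₁ * P ≤ (ε * (1 - ε₁)) * P := mul_le_mul_of_nonneg_right h12 hP0
            _ = ε * ((1 - ε₁) * P) := by ring
        exact this.trans (mul_le_mul_of_nonneg_left h10 hε.le)
      calc χ x * |σ x * P - g₀.inner x v v| ≤ 1 * |σ x * P - g₀.inner x v v| :=
            mul_le_mul_of_nonneg_right h7 (abs_nonneg _)
        _ ≤ ε * g₀.inner x v v := by rw [one_mul]; linarith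
  · intro V _ _ hV f hf hiso
    set c : ℂ → M := param (I := I) A x₀ with hc
    -- the derivative of f ∘ c
    have hder : ∀ z : ℂ, ‖z‖ < r → DifferentiableAt ℝ (f ∘ c) z ∧ ∀ v w : ℂ,
        (inner ℝ (fderiv ℝ (f ∘ c) z v) (fderiv ℝ (f ∘ c) z w) : ℝ) =
          rho ε₁ hε₁0 (η⁻¹ • z) ^ 2 * inner ℝ v w := by
      intro z hz
      obtain ⟨hz1, hz2⟩ := hrad z hz
      have hx : χ (c z) ≠ 0 := by rw [hz2]; exact one_ne_zero
      have hcs : MDifferentiableAt 𝓘(ℝ, ℂ) I c z :=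
        (param_smooth I A x₀ hz1).mdifferentiableAt (by simp)
      have hfs : MDifferentiableAt I 𝓘(ℝ, V) f (c z) := (hf (c z)).mdifferentiableAt (by simp)
      have hΨd : MDifferentiableAt I 𝓘(ℝ, ℂ) Ψ (c z) := (hΨs (c z)).mdifferentiableAt (by simp)
      obtain ⟨Dc, hDc⟩ : ∃ Dc : ℂ →L[ℝ] E, HasMFDerivAt 𝓘(ℝ, ℂ) I c z Dc :=
        ⟨_, hcs.hasMFDerivAt⟩
      have h1 : HasMFDerivAt 𝓘(ℝ, ℂ) 𝓘(ℝ, V) (f ∘ c) z
          ((dM I f (c z)).comp Dc) := hfs.hasMFDerivAt.comp z hDc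
      have h2 : HasFDerivAt (f ∘ c) ((dM I f (c z)).comp Dc) z :=
        h1.hasFDerivAt
      have h3 : ∀ v : ℂ, fderiv ℝ (f ∘ c) z v = dM I f (c z) (Dc v) := by
        intro v
        rw [h2.fderiv]
        rfl
      -- Ψ ∘ c is the identity near z
      have h4 : HasMFDerivAt 𝓘(ℝ, ℂ) 𝓘(ℝ, ℂ) (Ψ ∘ c) z
          ((dM I Ψ (c z)).comp Dc) := hΨd.hasMFDerivAt.comp z hDc
      have h5 : Ψ ∘ c =ᶠ[𝓝 z] id := by
        have e1 : ∀ᶠ y in 𝓝 z, Ψ (c y) = coord (I := I) A x₀ (c y) :=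
          hcs.continuousAt.eventually (hsupp (c z) hx).2.2
        have e2 : ∀ᶠ y in 𝓝 z, ‖y‖ < r := by
          have : Continuous (fun y : ℂ => ‖y‖) := continuous_norm
          exact this.continuousAt.eventually (gt_mem_nhds hz)
        filter_upwards [e1, e2] with y hy1 hy2
        change Ψ (c y) = y
        rw [hy1]
        exact coord_param A x₀ (hrad y hy2).1
      have h6 : ∀ v : ℂ, dM I Ψ (c z) (Dc v) = v := by
        intro v
        have e1 : HasFDerivAt (Ψ ∘ c) ((dM I Ψ (c z)).comp Dc) z := h4.hasFDerivAt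
        have e2 : HasFDerivAt (Ψ ∘ c) (ContinuousLinearMap.id ℝ ℂ) z :=
          (hasFDerivAt_id z).congr_of_eventuallyEq h5
        have e3 := e1.unique e2
        exact congrArg (fun L : ℂ →L[ℝ] ℂ => L v) e3
      refine ⟨h2.differentiableAt, fun v w => ?_⟩
      rw [h3, h3]
      refine (hiso (c z) (Dc v) (Dc w)).trans ?_
      rw [hg, mix_apply, pbT_apply, h6, h6]
      have h7 : σ (c z) = rho ε₁ hε₁0 (η⁻¹ • z) ^ 2 := by
        have : Ψ (c z) = z := h5.self_of_nhds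
        rw [hσ]
        simp only
        rw [this]
      have hz2' : χ (c z) = 1 := hz2
      rw [hz2', h7]
      ring
    -- the rescaled map
    set F₀ : ℂ → V := fun y => η⁻¹ • f (c (η • y)) with hF₀
    refine plane_false (ε := ε₁) hε₁0 hV (by linarith) (F₀ := F₀) ?_ ?_
    · have h1 : ∀ z : ℂ, ‖z‖ < r → ContDiffAt ℝ 4 (f ∘ c) z := by
        intro z hz
        have e1 : ContMDiffAt 𝓘(ℝ, ℂ) I 4 c z :=
          (param_smooth I A x₀ (hrad z hz).1).of_le (by norm_cast)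
        exact ((hf (c z)).comp z e1).contDiffAt
      intro y hy
      rw [mem_ball_zero_iff] at hy
      have hy' : ‖η • y‖ < r := by
        rw [norm_smul, Real.norm_of_nonneg hη0.le, ← hηdef]
        nlinarith
      apply ContDiffAt.contDiffWithinAt
      apply ContDiffAt.const_smul
      exact (h1 _ hy').comp y (contDiffAt_id.const_smul η)
    · intro y hy v w
      rw [mem_ball_zero_iff] at hy
      have hy' : ‖η • y‖ < r := by
        rw [norm_smul, Real.norm_of_nonneg hη0.le, ← hηdef]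
        nlinarith
      obtain ⟨hd, hin⟩ := hder _ hy'
      have h1 : ∀ v : ℂ, fderiv ℝ F₀ y v = fderiv ℝ (f ∘ c) (η • y) v := by
        intro v
        have e1 : HasFDerivAt (fun y : ℂ => η • y) (η • ContinuousLinearMap.id ℝ ℂ) y :=
          (hasFDerivAt_id y).const_smul η
        have e2 : HasFDerivAt (fun y : ℂ => (f ∘ c) (η • y))
            ((fderiv ℝ (f ∘ c) (η • y)).comp (η • ContinuousLinearMap.id ℝ ℂ)) y :=
          hd.hasFDerivAt.comp y e1
        have e3 : HasFDerivAt F₀ (η⁻¹ • ((fderiv ℝ (f ∘ c) (η • y)).comp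
            (η • ContinuousLinearMap.id ℝ ℂ))) y := e2.const_smul η⁻¹
        rw [e3.fderiv]
        simp only [_root_.smul_apply, ContinuousLinearMap.comp_apply,
          ContinuousLinearMap.id_apply, map_smul]
        rw [smul_smul, inv_mul_cancel₀ hη0.ne', one_smul]
      rw [h1, h1, hin, smul_smul, inv_mul_cancel₀ hη0.ne', one_smul]

end

end Q198.Moat
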