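import Pool.Agent.Q198.Moat.Chord

/-!
# Short straight chords exist near the boundary of a flat disc
-/

set_option autoImplicit false

open Set Filter Topology

namespace Q198.Moat

variable {V : Type*} [NormedAddCommGroup V] [InnerProductSpace ℝ V]

/-- orthogonal decomposition in the plane -/
theorem decomp {d : ℂ} (hd : ‖d‖ = 1) (w : ℂ) :
    w = (inner ℝ w d : ℝ) • d + (inner ℝ w (Complex.I * d) : ℝ) • (Complex.I * d) := by
  have h1 : d.re * d.re + d.im * d.im = 1 := by
    have := Complex.sq_norm d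
    rw [hd, Complex.normSq_apply] at this
    linarith
  apply Complex.ext
  · simp [Complex.inner]
    linear_combination (-w.re) * h1
  · simp [Complex.inner]
    linear_combination (-w.im) * h1

/-- the length of a chord through a given point -/
theorem power {p q : ℂ} (hp : ‖p‖ = 1) (hq : ‖q‖ = 1) {α β : ℝ} (hαβ : α + β = 1) :
    ‖α • p + β • q‖ ^ 2 = 1 - α * β * ‖p - q‖ ^ 2 := by
  rw [norm_add_sq_real, norm_sub_sq_real, norm_smul, norm_smul, hp, hq, inner_smul_left,
    inner_smul_right]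
  simp only [mul_one, Real.norm_eq_abs, sq_abs, RCLike.conj_to_real]
  have : β = 1 - α := by linarith
  subst this
  ring

namespace FlatMap

variable {F : ℂ → V} (h : FlatMap F)
include h

theorem planar {s₀ μ : ℝ} {u : ℂ} (hs₀ : 0 < s₀) (hs₁ : s₀ ≤ 1)
    (hflat : ∀ y : ℂ, ‖y‖ < s₀ → μ < inner ℝ y u → ∀ x, D x (D x F) y = 0)
    {a b : ℂ} (ha : ‖a‖ ≤ s₀) (hb : ‖b‖ ≤ s₀) (hau : μ < inner ℝ a u) (hbu : μ < inner ℝ b u) :
    ‖F a - F b‖ = ‖a - b‖ := by
  -- the open case
  have hopen : ∀ a b : ℂ, ‖a‖ < s₀ → ‖b‖ < s₀ → μ < inner ℝ a u → μ < inner ℝ b u →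
      ‖F a - F b‖ = ‖a - b‖ := by
    intro a b ha hb hau hbu
    have hmem : ∀ t ∈ Icc (0 : ℝ) 1, ∀ x, D x (D x F) (b + t • (a - b)) = 0 := by
      intro t ht
      have e1 : b + t • (a - b) = (1 - t) • b + t • a := by module
      apply hflat
      · have := (convex_ball (0 : ℂ) s₀) (mem_ball_zero_iff.2 hb) (mem_ball_zero_iff.2 ha)
          (by linarith [ht.2] : (0 : ℝ) ≤ 1 - t) ht.1 (by ring)
        rw [e1]
        simpa using this
      · rw [e1, inner_add_left, inner_smul_left, inner_smul_left]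
        simp only [RCLike.conj_to_real]
        have h1 := ht.1
        have h2 := ht.2
        rcases eq_or_lt_of_le h1 with h3 | h3
        · rw [← h3]; linarith
        · have h4 : 0 < t * (inner ℝ a u - μ) := mul_pos h3 (by linarith)
          have h5 : 0 ≤ (1 - t) * (inner ℝ b u - μ) := mul_nonneg (by linarith) (by linarith)
          linarith
    set e : ℂ := a - b with he
    have hG : ∀ t ∈ Icc (0 : ℝ) 1, D e F (b + t • e) = D e F (b + (0 : ℝ) • e) := by
      apply constant_of_has_deriv_right_zero (f := fun t : ℝ => D e F (b + t • e))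
      · exact ((h.c1 e).continuous.comp (by fun_prop)).continuousOn
      · intro t ht
        have := hasDerivAt_line (h.d1 e) b e t
        rw [hmem t ⟨ht.1, ht.2.le⟩] at this
        exact this.hasDerivWithinAt
    rw [zero_smul, add_zero] at hG
    have hK : ∀ t ∈ Icc (0 : ℝ) 1, F (b + t • e) - t • D e F b =
        F (b + (0 : ℝ) • e) - (0 : ℝ) • D e F b := by
      apply constant_of_has_deriv_right_zero (f := fun t : ℝ => F (b + t • e) - t • D e F b)
      · apply Continuous.continuousOn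
        exact (h.diff.continuous.comp (by fun_prop)).sub (by fun_prop)
      · intro t ht
        have h1 := hasDerivAt_line h.diff b e t
        rw [hG t ⟨ht.1, ht.2.le⟩] at h1
        have h2 : HasDerivAt (fun t : ℝ => t • D e F b) (D e F b) t := by
          simpa using (hasDerivAt_id t).smul_const (D e F b)
        have h3 := h1.fun_sub h2
        rw [sub_self] at h3
        exact h3.hasDerivWithinAt
    have h1 := hK 1 ⟨zero_le_one, le_rfl⟩
    rw [one_smul, one_smul, zero_smul, zero_smul, add_zero, sub_zero] at h1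
    have h2 : b + e = a := by rw [he]; ring
    rw [h2] at h1
    have h3 : F a - F b = D e F b := by rw [← h1]; abel
    rw [h3]
    unfold D
    rw [h.norm_fderiv (mem_closedBall_zero_iff.2 (by linarith))]
  -- the closed case
  have hlim : ∀ c : ℂ, Tendsto (fun t : ℝ => t • c) (𝓝[<] 1) (𝓝 c) := by
    intro c
    have : Continuous (fun t : ℝ => t • c) := by fun_prop
    have h1 := this.tendsto 1
    rw [one_smul] at h1
    exact h1.mono_left nhdsWithin_le_nhds
  have hev : ∀ c : ℂ, ‖c‖ ≤ s₀ → μ < inner ℝ c u →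
      ∀ᶠ t in 𝓝[<] (1 : ℝ), ‖t • c‖ < s₀ ∧ μ < inner ℝ (t • c) u := by
    intro c hc hcu
    have h1 : ∀ᶠ t in 𝓝[<] (1 : ℝ), μ < inner ℝ (t • c) u :=
      ((hlim c).inner tendsto_const_nhds).eventually_const_lt hcu
    have h2 : ∀ᶠ t in 𝓝[<] (1 : ℝ), t ∈ Ioo (0 : ℝ) 1 := Ioo_mem_nhdsLT zero_lt_one
    filter_upwards [h1, h2] with t ht1 ht2
    refine ⟨?_, ht1⟩
    rw [norm_smul, Real.norm_of_nonneg ht2.1.le]
    have h3 := norm_nonneg c
    nlinarith [ht2.1, ht2.2]
  have hF : Continuous F := h.diff.continuous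
  have t1 : Tendsto (fun t : ℝ => ‖F (t • a) - F (t • b)‖) (𝓝[<] 1) (𝓝 ‖F a - F b‖) :=
    (((hF.tendsto a).comp (hlim a)).sub ((hF.tendsto b).comp (hlim b))).norm
  have t2 : Tendsto (fun t : ℝ => ‖t • a - t • b‖) (𝓝[<] 1) (𝓝 ‖a - b‖) :=
    ((hlim a).sub (hlim b)).norm
  refine tendsto_nhds_unique (t1.congr' ?_) t2
  filter_upwards [hev a ha hau, hev b hb hbu] with t hta htb
  exact hopen _ _ hta.1 htb.1 hta.2 htb.2

/-- The main lemma: a flat disc of which neither the short boundary chords nor certain nearby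
chords are mapped to straight segments does not exist. -/
theorem no_flat (hV : Module.finrank ℝ V = 3) {l₀ l₁ s₀ μ₁ : ℝ} (hl₀ : 0 < l₀)
    (hl : 2 * l₀ ≤ l₁) (hs₀ : 0 < s₀) (hsl : s₀ ^ 2 = 1 - l₀ ^ 2 / 4) (hμ₁ : 0 ≤ μ₁)
    (hμl : μ₁ ^ 2 = 1 - l₁ ^ 2 / 4)
    (H1 : ∀ p q : ℂ, ‖p‖ = 1 → ‖q‖ = 1 → l₀ ≤ ‖p - q‖ → ‖p - q‖ ≤ l₁ →
      ‖F p - F q‖ ≠ ‖p - q‖)
    (H2 : ∀ u : ℂ, ‖u‖ = 1 → ∃ a b : ℂ, ‖a‖ ≤ s₀ ∧ ‖b‖ ≤ s₀ ∧ μ₁ < inner ℝ a u ∧
      μ₁ < inner ℝ b u ∧ ‖F a - F b‖ ≠ ‖a - b‖) : False := by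
  have hs₁ : s₀ ≤ 1 := by nlinarith
  have hlong : ∀ y : ℂ, ‖y‖ < s₀ → ∀ p q : ℂ, ‖p‖ = 1 → ‖q‖ = 1 → y ∈ openSegment ℝ p q →
      ‖F p - F q‖ = ‖p - q‖ → l₁ < ‖p - q‖ := by
    intro y hy p q hp hq hyo hg
    obtain ⟨α, β, hα, hβ, hαβ, rfl⟩ := hyo
    have h1 := power hp hq hαβ
    have h2 : ‖α • p + β • q‖ ^ 2 < s₀ ^ 2 := by
      have := norm_nonneg (α • p + β • q)
      nlinarith
    have h3 : α * β ≤ 1 / 4 := by
      have : β = 1 - α := by linarith
      subst this
      nlinarith [sq_nonneg (α - 1 / 2)]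
    have h4 : l₀ ^ 2 < ‖p - q‖ ^ 2 := by
      have h5 : 0 ≤ (1 / 4 - α * β) * ‖p - q‖ ^ 2 := by
        apply mul_nonneg (by linarith) (sq_nonneg _)
      nlinarith
    have h5 : l₀ < ‖p - q‖ := lt_of_pow_lt_pow_left₀ 2 (norm_nonneg _) h4
    by_contra hcon
    push Not at hcon
    exact H1 p q hp hq h5.le hcon hg
  set Z : Set (ℂ × ℂ) := {x | x.1 ∈ Metric.sphere (0 : ℂ) 1 ∧ x.2 ∈ Metric.sphere (0 : ℂ) 1 ∧
    ‖F x.1 - F x.2‖ = ‖x.1 - x.2‖ ∧ l₁ ≤ ‖x.1 - x.2‖} with hZ
  have hF : Continuous F := h.diff.continuous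
  have hZc : IsCompact Z := by
    have h1 : IsCompact (Metric.sphere (0 : ℂ) 1 ×ˢ Metric.sphere (0 : ℂ) 1) :=
      (isCompact_sphere 0 1).prod (isCompact_sphere 0 1)
    have c1 : Continuous (fun x : ℂ × ℂ => ‖F x.1 - F x.2‖) :=
      ((hF.comp continuous_fst).sub (hF.comp continuous_snd)).norm
    have c2 : Continuous (fun x : ℂ × ℂ => ‖x.1 - x.2‖) := by fun_prop
    have h2 : IsClosed {x : ℂ × ℂ | ‖F x.1 - F x.2‖ = ‖x.1 - x.2‖ ∧ l₁ ≤ ‖x.1 - x.2‖} :=
      (isClosed_eq c1 c2).inter (isClosed_le continuous_const c2)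
    have h3 := h1.inter_right h2
    convert h3 using 1
    ext x
    simp only [hZ, mem_ofPred_eq, mem_inter_iff, mem_prod]
    tauto
  rcases Z.eq_empty_or_nonempty with hemp | hne
  · -- no long straight chord: the disc is planar
    obtain ⟨a, b, ha, hb, hau, hbu, hab⟩ := H2 1 (by simp)
    apply hab
    refine h.planar (μ := μ₁) (u := 1) hs₀ hs₁ ?_ ha hb hau hbu
    intro y hy _ x
    by_contra hx
    obtain ⟨p, q, hp, hq, hyo, hg⟩ := h.chord hV
      (mem_ball_zero_iff.2 (lt_of_lt_of_le hy hs₁)) ⟨x, x, hx⟩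
    have h1 := hlong y hy p q hp hq hyo hg
    have : (p, q) ∈ Z := ⟨by simpa using hp, by simpa using hq, hg, h1.le⟩
    rw [hemp] at this
    exact this
  · obtain ⟨⟨p, q⟩, hpq, hmin⟩ := hZc.exists_isMinOn hne
      (f := fun x : ℂ × ℂ => ‖x.1 - x.2‖) (by fun_prop)
    obtain ⟨hp, hq, hg, hlpq⟩ := hpq
    simp only [mem_sphere_iff_norm, sub_zero] at hp hq
    simp only at hg hlpq
    have hmin' : ∀ p' q' : ℂ, ‖p'‖ = 1 → ‖q'‖ = 1 → ‖F p' - F q'‖ = ‖p' - q'‖ →
        l₁ ≤ ‖p' - q'‖ → ‖p - q‖ ≤ ‖p' - q'‖ := by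
      intro p' q' hp' hq' hg' hl'
      exact isMinOn_iff.1 hmin (p', q')
        ⟨by simpa using hp', by simpa using hq', hg', hl'⟩
    have hl₁pos : 0 < l₁ := by linarith
    set l : ℝ := ‖p - q‖ with hldef
    have hlpos : 0 < l := by linarith
    set d : ℂ := (l⁻¹ : ℝ) • (p - q) with hd
    have hd1 : ‖d‖ = 1 := by
      rw [hd, norm_smul, norm_inv, Real.norm_of_nonneg hlpos.le, ← hldef,
        inv_mul_cancel₀ hlpos.ne']
    have hpqd : p - q = l • d := by
      rw [hd, smul_smul, mul_inv_cancel₀ hlpos.ne', one_smul]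
    clear_value d
    -- choose the normal direction
    obtain ⟨u, hu1, hdec, hdu, hup⟩ : ∃ u : ℂ, ‖u‖ = 1 ∧
        (∀ w : ℂ, w = (inner ℝ w d : ℝ) • d + (inner ℝ w u : ℝ) • u) ∧
        (inner ℝ d u : ℝ) = 0 ∧ 0 ≤ (inner ℝ p u : ℝ) := by
      have hI : ‖Complex.I * d‖ = 1 := by rw [norm_mul, Complex.norm_I, one_mul, hd1]
      have ho : (inner ℝ d (Complex.I * d) : ℝ) = 0 := by
        simp [Complex.inner]; ring
      rcases le_total 0 (inner ℝ p (Complex.I * d) : ℝ) with h0 | h0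
      · exact ⟨Complex.I * d, hI, decomp hd1, ho, h0⟩
      · refine ⟨-(Complex.I * d), by rw [norm_neg, hI], ?_, ?_, ?_⟩
        · intro w
          have := decomp hd1 w
          rw [inner_neg_right, smul_neg, neg_smul, neg_neg]
          exact this
        · rw [inner_neg_right, ho, neg_zero]
        · rw [inner_neg_right]; linarith
    have hnorm : ∀ w : ℂ, ‖w‖ ^ 2 = (inner ℝ w d : ℝ) ^ 2 + (inner ℝ w u : ℝ) ^ 2 := by
      intro w
      conv_lhs => rw [hdec w]
      rw [norm_add_sq_real, norm_smul, norm_smul, inner_smul_left, inner_smul_right, hdu, hd1,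
        hu1]
      simp only [mul_one, mul_zero, add_zero, Real.norm_eq_abs, sq_abs]
    set μ : ℝ := inner ℝ p u with hμ
    have hqu : (inner ℝ q u : ℝ) = μ := by
      have h1 : (inner ℝ (p - q) u : ℝ) = 0 := by
        rw [hpqd, inner_smul_left, hdu, mul_zero]
      rw [inner_sub_left] at h1
      linarith
    have hd_self : (inner ℝ d d : ℝ) = 1 := by rw [real_inner_self_eq_norm_sq, hd1]; norm_num
    have hpqd' : (inner ℝ p d : ℝ) - inner ℝ q d = l := by
      rw [← inner_sub_left, hpqd, inner_smul_left, hd_self]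
      simp
    have hnp := hnorm p
    have hnq := hnorm q
    rw [hp] at hnp
    rw [hq, hqu] at hnq
    have hpd : (inner ℝ p d : ℝ) = l / 2 := by
      have h1 : (inner ℝ p d - inner ℝ q d : ℝ) * (inner ℝ p d + inner ℝ q d) = 0 := by
        linear_combination hnq - hnp
      rw [hpqd'] at h1
      have := (mul_eq_zero.1 h1).resolve_left hlpos.ne'
      linarith
    have hqd : (inner ℝ q d : ℝ) = -(l / 2) := by linarith
    have hμsq : μ ^ 2 = 1 - l ^ 2 / 4 := by
      rw [hpd] at hnp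
      linarith
    have hμle : μ ≤ μ₁ := by
      have : μ ^ 2 ≤ μ₁ ^ 2 := by rw [hμsq, hμl]; nlinarith
      exact le_of_sq_le_sq this hμ₁
    -- chords inside the cap are shorter
    have claim1 : ∀ p' q' : ℂ, ‖p'‖ = 1 → ‖q'‖ = 1 → μ < inner ℝ p' u → μ ≤ inner ℝ q' u →
        ‖p' - q'‖ < l := by
      intro p' q' hp' hq' h1 h2
      have h3 : ‖p' - q'‖ ^ 2 = 4 - ‖p' + q'‖ ^ 2 := by
        rw [norm_sub_sq_real, norm_add_sq_real, hp', hq']; ring
      have h4 := hnorm (p' + q')
      have h5 : 2 * μ < inner ℝ (p' + q') u := by rw [inner_add_left]; linarith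
      have h6 : (2 * μ) ^ 2 < (inner ℝ (p' + q') u : ℝ) ^ 2 := by
        apply sq_lt_sq' <;> nlinarith
      have h7 : ‖p' - q'‖ ^ 2 < l ^ 2 := by
        rw [h3, h4]
        nlinarith [sq_nonneg (inner ℝ (p' + q') d : ℝ)]
      exact lt_of_pow_lt_pow_left₀ 2 hlpos.le h7
    -- the central claim
    have claim2 : ∀ y : ℂ, ‖y‖ < s₀ → μ < inner ℝ y u → ∀ p' q' : ℂ, ‖p'‖ = 1 → ‖q'‖ = 1 →
        y ∈ openSegment ℝ p' q' → ‖F p' - F q'‖ = ‖p' - q'‖ → μ < inner ℝ p' u → False := by
      intro y hy hyu p' q' hp' hq' hyo hg' hp'u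
      have hl' := hlong y hy p' q' hp' hq' hyo hg'
      have hll := hmin' p' q' hp' hq' hg' hl'.le
      rcases le_or_gt μ (inner ℝ q' u : ℝ) with hq'u | hq'u
      · exact absurd (claim1 p' q' hp' hq' hp'u hq'u) (not_lt.2 hll)
      · -- the chords cross
        set A : ℝ := inner ℝ p' u with hA
        set B : ℝ := inner ℝ q' u with hB
        set t : ℝ := (A - μ) / (A - B) with ht
        have hAB : 0 < A - B := by linarith
        have ht0 : 0 < t := div_pos (by linarith) hAB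
        have ht1 : t < 1 := by rw [ht, div_lt_one hAB]; linarith
        set z : ℂ := (1 - t) • p' + t • q' with hz
        have hzo : z ∈ openSegment ℝ p' q' := ⟨1 - t, t, by linarith, ht0, by ring, rfl⟩
        have hzu : (inner ℝ z u : ℝ) = μ := by
          rw [hz, inner_add_left, inner_smul_left, inner_smul_left]
          simp only [RCLike.conj_to_real]
          rw [← hA, ← hB]
          have : t * (A - B) = A - μ := div_mul_cancel₀ _ hAB.ne'
          linarith
        have hznorm : ‖z‖ ^ 2 < 1 := by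
          rw [hz, power hp' hq' (by ring)]
          have : 0 < (1 - t) * t * ‖p' - q'‖ ^ 2 := by
            apply mul_pos (mul_pos (by linarith) ht0)
            have : 0 < ‖p' - q'‖ := by linarith
            positivity
          linarith
        set τ : ℝ := inner ℝ z d with hτ
        have hτ2 : τ ^ 2 < (l / 2) ^ 2 := by
          have h1 := hnorm z
          rw [hzu] at h1
          nlinarith
        obtain ⟨hτa, hτb⟩ := abs_lt.1 (abs_lt_of_sq_lt_sq hτ2 (by linarith))
        have hzpq : z ∈ openSegment ℝ p q := by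
          refine ⟨1 / 2 + τ / l, 1 / 2 - τ / l, ?_, ?_, by ring, ?_⟩
          · have : -(1 / 2) < τ / l := by rw [lt_div_iff₀ hlpos]; linarith
            linarith
          · have : τ / l < 1 / 2 := by rw [div_lt_iff₀ hlpos]; linarith
            linarith
          · rw [hdec z, hdec p, hdec q, hpd, hqd, ← hμ, hqu, ← hτ, hzu]
            have : l ≠ 0 := hlpos.ne'
            have e1 : ((1 / 2 + τ / l) * (l / 2) + (1 / 2 - τ / l) * (-(l / 2))) = τ := by
              field_simp; ring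
            have e2 : (1 / 2 + τ / l) * μ + (1 / 2 - τ / l) * μ = μ := by ring
            conv_rhs => rw [← e1, ← e2]
            module
        have cb : ∀ w : ℂ, ‖w‖ = 1 → w ∈ Metric.closedBall (0 : ℂ) 1 := by
          intro w hw; rw [mem_closedBall_zero_iff, hw]
        have g1 : ‖F p' - F p‖ = ‖p' - p‖ :=
          h.crossing (cb _ hp') (cb _ hq') (cb _ hp) (cb _ hq) hzo hzpq hg' hg
        have g2 : ‖F p' - F q‖ = ‖p' - q‖ := by
          refine h.crossing (cb _ hp') (cb _ hq') (cb _ hq) (cb _ hp) hzo ?_ hg' ?_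
          · rw [openSegment_symm]; exact hzpq
          · rw [norm_sub_rev, hg, hldef, norm_sub_rev]
        have short : ∀ w : ℂ, ‖w‖ = 1 → (inner ℝ w u : ℝ) = μ → ‖F p' - F w‖ = ‖p' - w‖ →
            ‖p' - w‖ < l₀ := by
          intro w hw hwu hgw
          have h1 := claim1 p' w hp' hw hp'u hwu.ge
          have h2 : ‖p' - w‖ < l₁ := by
            by_contra hcon
            push Not at hcon
            exact absurd (hmin' p' w hp' hw hgw hcon) (not_le.2 h1)
          by_contra hcon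
          push Not at hcon
          exact H1 p' w hp' hw hcon h2.le hgw
        have s1 := short p hp rfl g1
        have s2 := short q hq hqu g2
        have h3 : l ≤ ‖p - p'‖ + ‖p' - q‖ := by
          rw [hldef]; exact norm_sub_le_norm_sub_add_norm_sub p p' q
        rw [norm_sub_rev p p'] at h3
        linarith
    obtain ⟨a, b, ha, hb, hau, hbu, hab⟩ := H2 u hu1
    apply hab
    refine h.planar (μ := μ) (u := u) hs₀ hs₁ ?_ ha hb (by linarith) (by linarith)
    intro y hy hyu x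
    by_contra hx
    obtain ⟨p', q', hp', hq', hyo, hg'⟩ := h.chord hV
      (mem_ball_zero_iff.2 (lt_of_lt_of_le hy hs₁)) ⟨x, x, hx⟩
    rcases lt_or_ge μ (inner ℝ p' u : ℝ) with h1 | h1
    · exact claim2 y hy hyu p' q' hp' hq' hyo hg' h1
    · rcases lt_or_ge μ (inner ℝ q' u : ℝ) with h2 | h2
      · refine claim2 y hy hyu q' p' hq' hp' ?_ ?_ h2
        · rw [openSegment_symm]; exact hyo
        · rw [norm_sub_rev, hg', norm_sub_rev]
      · obtain ⟨α, β, hα, hβ, hαβ, rfl⟩ := hyo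
        rw [inner_add_left, inner_smul_left, inner_smul_left] at hyu
        simp only [RCLike.conj_to_real] at hyu
        nlinarith

end FlatMap

end Q198.Moat
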