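import Pool.Agent.Q198.Moat.Flat

/-!
# Straight chords in the image of a flat disc
-/

set_option autoImplicit false

open Set Filter Topology

namespace Q198.Moat

variable {V : Type*} [NormedAddCommGroup V] [InnerProductSpace ℝ V]

theorem D_neg (e : ℂ) (u : ℂ → V) (z : ℂ) : D (-e) u z = -D e u z := by
  unfold D; rw [map_neg]

namespace FlatMap

variable {F : ℂ → V} (h : FlatMap F)
include h

theorem norm_fderiv {z : ℂ} (hz : z ∈ Metric.closedBall (0 : ℂ) 1) (v : ℂ) :
    ‖fderiv ℝ F z v‖ = ‖v‖ := by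
  have h1 := h.iso z hz v v
  rw [real_inner_self_eq_norm_sq, real_inner_self_eq_norm_sq] at h1
  exact (pow_left_inj₀ (norm_nonneg _) (norm_nonneg _) two_ne_zero).1 h1

theorem lip {p q : ℂ} (hp : p ∈ Metric.closedBall (0 : ℂ) 1)
    (hq : q ∈ Metric.closedBall (0 : ℂ) 1) : ‖F p - F q‖ ≤ ‖p - q‖ := by
  have := Convex.norm_image_sub_le_of_norm_fderiv_le (𝕜 := ℝ) (f := F) (C := 1)
    (s := Metric.closedBall (0 : ℂ) 1) (fun x _ => h.diff x)
    (fun x hx => ContinuousLinearMap.opNorm_le_bound _ zero_le_one fun v => by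
      rw [h.norm_fderiv hx, one_mul]) (convex_closedBall 0 1) hq hp
  simpa using this

/-- through every non planar point of the open disc there is a chord that is mapped to a straight
segment -/
theorem chord (hV : Module.finrank ℝ V = 3) {z : ℂ} (hz : z ∈ Metric.ball (0 : ℂ) 1)
    (hne : ∃ x y, D x (D y F) z ≠ 0) :
    ∃ p q : ℂ, ‖p‖ = 1 ∧ ‖q‖ = 1 ∧ z ∈ openSegment ℝ p q ∧ ‖F p - F q‖ = ‖p - q‖ := by
  obtain ⟨e, he, hnull⟩ := h.null_direction hV hz
  obtain ⟨e', he'⟩ := h.curved_direction hne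
  set s : ℝ := inner ℝ z e with hs
  have hz1 : ‖z‖ < 1 := by simpa using hz
  have hzn : ‖z‖ ^ 2 < 1 := by
    have := norm_nonneg z
    nlinarith
  set r : ℝ := Real.sqrt (s ^ 2 + 1 - ‖z‖ ^ 2) with hr
  have hr2 : r ^ 2 = s ^ 2 + 1 - ‖z‖ ^ 2 := Real.sq_sqrt (by nlinarith [sq_nonneg s])
  have hr0 : 0 ≤ r := Real.sqrt_nonneg _
  have hrs : |s| < r := by
    rw [← abs_of_nonneg hr0, ← sq_lt_sq]
    linarith
  obtain ⟨hs1, hs2⟩ := abs_lt.1 hrs
  have hnorm : ∀ t : ℝ, ‖z + t • e‖ ^ 2 = (t + s) ^ 2 + ‖z‖ ^ 2 - s ^ 2 := by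
    intro t
    rw [norm_add_sq_real, norm_smul, inner_smul_right, he, ← hs, mul_one, Real.norm_eq_abs,
      sq_abs]
    ring
  have hball : ∀ t ∈ Ioo (-s - r) (-s + r), z + t • e ∈ Metric.ball (0 : ℂ) 1 := by
    intro t ht
    rw [mem_ball_zero_iff]
    have h1 := hnorm t
    have h2 : (t + s) ^ 2 < r ^ 2 := by
      rw [sq_lt_sq, abs_of_nonneg hr0, abs_lt]
      constructor <;> linarith [ht.1, ht.2]
    have h3 : ‖z + t • e‖ ^ 2 < 1 ^ 2 := by rw [h1]; linarith
    exact lt_of_pow_lt_pow_left₀ 2 zero_le_one h3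
  have hdd : ∀ t ∈ Ioo (-s - r) (-s + r), D e (D e F) (z + t • e) = 0 := by
    intro t ht
    rcases le_total 0 t with h0 | h0
    · exact h.ruling_line hV (T := t) (e := e) (e' := e')
        (fun u hu => hball u ⟨by linarith [hu.1], by linarith [hu.2, ht.2]⟩)
        (hnull e) (hnull e') he' ⟨h0, le_rfl⟩
    · have h2 := h.ruling_line hV (T := -t) (e := -e) (e' := e') (z := z) (t := -t)
        (fun u hu => by
          have := hball (-u) ⟨by linarith [hu.2, ht.1], by linarith [hu.1]⟩
          simpa using this)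
        (by rw [D_neg, h.comm, D_neg, hnull]; simp) (by rw [D_neg, hnull, neg_zero]) he'
        ⟨by linarith, le_rfl⟩
      have h3 : z + (-t) • (-e) = z + t • e := by simp
      rw [h3, h.D_eq] at h2
      rw [h.D_eq]
      simpa using h2
  have hlt : -s - r < -s + r := by linarith [abs_nonneg s]
  have hdd' : ∀ t ∈ Icc (-s - r) (-s + r), D e (D e F) (z + t • e) = 0 := by
    have hcl : IsClosed {t : ℝ | D e (D e F) (z + t • e) = 0} := by
      apply isClosed_eq _ continuous_const
      exact (h.c2 e e).continuous.comp (by fun_prop)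
    have : closure (Ioo (-s - r) (-s + r)) ⊆ {t : ℝ | D e (D e F) (z + t • e) = 0} :=
      hcl.closure_subset_iff.2 hdd
    rwa [closure_Ioo hlt.ne] at this
  set w : V := D e F z with hw
  have hw1 : ‖w‖ = 1 := by
    rw [hw]; unfold D
    rw [h.norm_fderiv (Metric.ball_subset_closedBall hz), he]
  have hG : ∀ t ∈ Icc (-s - r) (-s + r), D e F (z + t • e) = w := by
    have h1 : ∀ t ∈ Icc (-s - r) (-s + r), D e F (z + t • e) = D e F (z + (-s - r) • e) := by
      apply constant_of_has_deriv_right_zero (f := fun t : ℝ => D e F (z + t • e))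
      · exact ((h.c1 e).continuous.comp (by fun_prop)).continuousOn
      · intro t ht
        have := hasDerivAt_line (h.d1 e) z e t
        rw [hdd' t ⟨ht.1, ht.2.le⟩] at this
        exact this.hasDerivWithinAt
    have h0 : D e F (z + (0 : ℝ) • e) = w := by rw [zero_smul, add_zero]
    intro t ht
    rw [h1 t ht, ← h0, h1 0 ⟨by linarith, by linarith⟩]
  have hK : ∀ t ∈ Icc (-s - r) (-s + r), F (z + t • e) - t • w =
      F (z + (-s - r) • e) - (-s - r) • w := by
    apply constant_of_has_deriv_right_zero (f := fun t : ℝ => F (z + t • e) - t • w)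
    · apply Continuous.continuousOn
      exact (h.diff.continuous.comp (by fun_prop)).sub (by fun_prop)
    · intro t ht
      have h1 := hasDerivAt_line h.diff z e t
      rw [hG t ⟨ht.1, ht.2.le⟩] at h1
      have h2 : HasDerivAt (fun t : ℝ => t • w) w t := by
        simpa using (hasDerivAt_id t).smul_const w
      have h3 := h1.fun_sub h2
      rw [sub_self] at h3
      exact h3.hasDerivWithinAt
  refine ⟨z + (-s - r) • e, z + (-s + r) • e, ?_, ?_, ?_, ?_⟩
  · have h1 := hnorm (-s - r)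
    have h2 : ‖z + (-s - r) • e‖ ^ 2 = 1 ^ 2 := by rw [h1]; linear_combination hr2
    exact (pow_left_inj₀ (norm_nonneg _) zero_le_one two_ne_zero).1 h2
  · have h1 := hnorm (-s + r)
    have h2 : ‖z + (-s + r) • e‖ ^ 2 = 1 ^ 2 := by rw [h1]; linear_combination hr2
    exact (pow_left_inj₀ (norm_nonneg _) zero_le_one two_ne_zero).1 h2
  · have hr1 : 0 < 2 * r := by linarith [abs_nonneg s]
    refine ⟨(-s + r) / (2 * r), (s + r) / (2 * r), div_pos (by linarith) hr1,
      div_pos (by linarith) hr1, ?_, ?_⟩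
    · rw [← add_div]; rw [div_eq_one_iff_eq hr1.ne']; ring
    · rw [smul_add, smul_add, smul_smul, smul_smul, add_add_add_comm, ← add_smul, ← add_smul]
      have e1 : (-s + r) / (2 * r) + (s + r) / (2 * r) = 1 := by
        rw [← add_div]; rw [div_eq_one_iff_eq hr1.ne']; ring
      have e2 : (-s + r) / (2 * r) * (-s - r) + (s + r) / (2 * r) * (-s + r) = 0 := by
        field_simp; ring
      rw [e1, e2, one_smul, zero_smul, add_zero]
  · have h1 := hK (-s + r) ⟨hlt.le, le_rfl⟩
    have h2 : F (z + (-s - r) • e) - F (z + (-s + r) • e) = (-(2 * r)) • w := by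
      have : F (z + (-s + r) • e) = F (z + (-s - r) • e) - (-s - r) • w + (-s + r) • w := by
        rw [← h1]; abel
      rw [this]
      module
    have h3 : z + (-s - r) • e - (z + (-s + r) • e) = (-(2 * r)) • e := by module
    rw [h2, h3, norm_smul, norm_smul, hw1, he]

/-- along a chord that is mapped isometrically, the map is affine -/
theorem good_tangent {p q z : ℂ} (hp : p ∈ Metric.closedBall (0 : ℂ) 1)
    (hq : q ∈ Metric.closedBall (0 : ℂ) 1) (hz : z ∈ openSegment ℝ p q)
    (hg : ‖F p - F q‖ = ‖p - q‖) :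
    F p - F z = fderiv ℝ F z (p - z) ∧ F q - F z = fderiv ℝ F z (q - z) := by
  rw [openSegment_eq_image_lineMap] at hz
  obtain ⟨r₀, hr₀, rfl⟩ := hz
  have hline : ∀ r ∈ Icc (0 : ℝ) 1, F (AffineMap.lineMap p q r) =
      AffineMap.lineMap (F p) (F q) r := by
    intro r hr
    have hmem : AffineMap.lineMap p q r ∈ Metric.closedBall (0 : ℂ) 1 :=
      (convex_closedBall (0 : ℂ) 1).lineMap_mem hp hq hr
    have h1 : dist (F p) (F (AffineMap.lineMap p q r)) ≤ r * dist p q := by
      rw [dist_eq_norm]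
      refine (h.lip hp hmem).trans (le_of_eq ?_)
      rw [← dist_eq_norm, dist_left_lineMap, Real.norm_of_nonneg hr.1]
    have h2 : dist (F (AffineMap.lineMap p q r)) (F q) ≤ (1 - r) * dist p q := by
      rw [dist_eq_norm]
      refine (h.lip hmem hq).trans (le_of_eq ?_)
      rw [← dist_eq_norm, dist_lineMap_right, Real.norm_of_nonneg (by linarith [hr.2])]
    have h3 := dist_triangle (F p) (F (AffineMap.lineMap p q r)) (F q)
    have h4 : dist (F p) (F q) = dist p q := by rw [dist_eq_norm, hg, dist_eq_norm]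
    apply eq_lineMap_of_dist_eq_mul_of_dist_eq_mul
    · rw [h4]; linarith
    · rw [h4]; linarith
  have hd : fderiv ℝ F (AffineMap.lineMap p q r₀) (q - p) = F q - F p := by
    have h1 : HasDerivAt (fun r : ℝ => F (AffineMap.lineMap p q r))
        (fderiv ℝ F (AffineMap.lineMap p q r₀) (q - p)) r₀ := by
      have h2 : HasDerivAt (fun r : ℝ => (AffineMap.lineMap p q r : ℂ)) (q - p) r₀ :=
        AffineMap.hasDerivAt_lineMap
      exact (h.diff _).hasFDerivAt.comp_hasDerivAt r₀ h2
    have h2 : HasDerivAt (fun r : ℝ => (AffineMap.lineMap (F p) (F q) r : V)) (F q - F p) r₀ :=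
      AffineMap.hasDerivAt_lineMap
    have h3 : (fun r : ℝ => F (AffineMap.lineMap p q r)) =ᶠ[𝓝 r₀]
        fun r : ℝ => (AffineMap.lineMap (F p) (F q) r : V) := by
      filter_upwards [Ioo_mem_nhds hr₀.1 hr₀.2] with r hr using hline r ⟨hr.1.le, hr.2.le⟩
    exact h1.unique (h2.congr_of_eventuallyEq h3)
  have h0 := hline r₀ ⟨hr₀.1.le, hr₀.2.le⟩
  constructor
  · have e1 : p - AffineMap.lineMap p q r₀ = (-r₀) • (q - p) := by
      simp [AffineMap.lineMap_apply]
    have e2 : F p - AffineMap.lineMap (F p) (F q) r₀ = (-r₀) • (F q - F p) := by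
      simp [AffineMap.lineMap_apply]
    rw [h0, e1, e2, map_smul, hd]
  · have e1 : q - AffineMap.lineMap p q r₀ = (1 - r₀) • (q - p) := by
      simp only [AffineMap.lineMap_apply, vsub_eq_sub, vadd_eq_add]; module
    have e2 : F q - AffineMap.lineMap (F p) (F q) r₀ = (1 - r₀) • (F q - F p) := by
      simp only [AffineMap.lineMap_apply, vsub_eq_sub, vadd_eq_add]; module
    rw [h0, e1, e2, map_smul, hd]

/-- two crossing straight chords span a planar piece -/
theorem crossing {p q p' q' z : ℂ} (hp : p ∈ Metric.closedBall (0 : ℂ) 1)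
    (hq : q ∈ Metric.closedBall (0 : ℂ) 1) (hp' : p' ∈ Metric.closedBall (0 : ℂ) 1)
    (hq' : q' ∈ Metric.closedBall (0 : ℂ) 1) (hz : z ∈ openSegment ℝ p q)
    (hz' : z ∈ openSegment ℝ p' q') (hg : ‖F p - F q‖ = ‖p - q‖)
    (hg' : ‖F p' - F q'‖ = ‖p' - q'‖) : ‖F p - F p'‖ = ‖p - p'‖ := by
  have h1 := (h.good_tangent hp hq hz hg).1
  have h2 := (h.good_tangent hp' hq' hz' hg').1
  have h3 : F p - F p' = fderiv ℝ F z (p - p') := by
    have : p - p' = (p - z) - (p' - z) := by ring
    rw [this, map_sub, ← h1, ← h2]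
    abel
  have hzc : z ∈ Metric.closedBall (0 : ℂ) 1 :=
    (convex_closedBall (0 : ℂ) 1).openSegment_subset hp hq hz
  rw [h3, h.norm_fderiv hzc]

end FlatMap

end Q198.Moat
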