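import Mathlib

/-!
# Riemannian metrics on surfaces and their isometric maps into Euclidean space
-/

set_option autoImplicit false

open Bundle Manifold
open scoped Manifold ContDiff

noncomputable section

namespace Q198.Moat

variable {E : Type*} [NormedAddCommGroup E] [NormedSpace ℝ E] {H : Type*} [TopologicalSpace H]
  (I : ModelWithCorners ℝ E H) (M : Type*) [TopologicalSpace M] [ChartedSpace H M]
  [IsManifold I ∞ M]

/-- The smooth (`C^∞`) Riemannian metrics on the smooth manifold `M` (in the sense of Mathlib). -/
abbrev Metric : Type _ := ContMDiffRiemannianMetric I ∞ E (fun x : M => TangentSpace I x)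

variable {I M}

/-- the number `g_x(v, w)` -/
def val (g : Metric I M) (x : M) (v w : TangentSpace I x) : ℝ := g.inner x v w

/-- `e` is a `g`-orthonormal pair of tangent vectors at `x` (a basis, if `M` is a surface) -/
def IsOrthonormal (g : Metric I M) (x : M) (e : Fin 2 → TangentSpace I x) : Prop :=
  ∀ i j, val g x (e i) (e j) = if i = j then 1 else 0

/-- the Euclidean norm `(∑ᵢⱼ (g - g₀)(eᵢ, eⱼ)²)^{1/2}` of the matrix of the tensor `g - g₀` with
respect to `e` -/
def tensorNorm (g g₀ : Metric I M) (x : M) (e : Fin 2 → TangentSpace I x) : ℝ :=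
  Real.sqrt (∑ i, ∑ j, (val g x (e i) (e j) - val g₀ x (e i) (e j)) ^ 2)

/-- `‖g - g₀‖_{C⁰} < ε` for metrics on a surface `M`: there is `δ < ε` such that at each point `x`
and for each `g₀`-orthonormal basis `e` of the tangent space at `x`, the norm `|g - g₀|_{g₀}(x)`
of the symmetric 2-tensor `g - g₀`, computed in this basis, is at most `δ`. -/
def CloseC0 (g g₀ : Metric I M) (ε : ℝ) : Prop :=
  ∃ δ < ε, ∀ (x : M) (e : Fin 2 → TangentSpace I x),
    IsOrthonormal g₀ x e → tensorNorm g g₀ x e ≤ δ

variable {V : Type*} [NormedAddCommGroup V] [InnerProductSpace ℝ V]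

variable (I) in
/-- the differential of a map from `M` to a Euclidean space -/
def diff (f : M → V) (x : M) (v : TangentSpace I x) : V := mfderiv I 𝓘(ℝ, V) f x v

/-- `f^* g_eucl = g` -/
def IsIsometric (g : Metric I M) (f : M → V) : Prop :=
  ∀ (x : M) (v w : TangentSpace I x), inner ℝ (diff I f x v) (diff I f x w) = val g x v w

/-- the Euclidean space `ℝ³` -/
abbrev R3 : Type := EuclideanSpace ℝ (Fin 3)

end Q198.Moat
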