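import Pool.Agent.Q198.Moat.Build
import Pool.Agent.Q198.Moat.Defs

/-!
# The final form
-/

set_option autoImplicit false

open Bundle Manifold
open scoped Manifold ContDiff

noncomputable section

namespace Q198.Moat

variable {E : Type*} [NormedAddCommGroup E] [NormedSpace ℝ E] {H : Type*} [TopologicalSpace H]
  {I : ModelWithCorners ℝ E H} {M : Type*} [TopologicalSpace M] [ChartedSpace H M]
  [IsManifold I ∞ M]

theorem surface_main (hE : Module.finrank ℝ E = 2) [I.Boundaryless] [T2Space M] [Nonempty M]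
    (g₀ : Metric I M) (ε : ℝ) (hε : 0 < ε) :
    ∃ g : Metric I M, CloseC0 g g₀ ε ∧
      ¬ ∃ f : M → R3, ContMDiff I 𝓘(ℝ, R3) 4 f ∧ IsIsometric g f := by
  have : FiniteDimensional ℝ E := Module.finite_of_finrank_eq_succ hE
  obtain ⟨x₀⟩ := ‹Nonempty M›
  obtain ⟨g, hclose, hno⟩ := main hE x₀ g₀ (ε := min (ε / 4) 1)
    (lt_min (by linarith) one_pos) (min_le_right _ _)
  set ε' : ℝ := min (ε / 4) 1 with hε'
  have hε'0 : 0 < ε' := lt_min (by linarith) one_pos
  have hε'1 : ε' ≤ ε / 4 := min_le_left _ _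
  refine ⟨g, ⟨2 * ε', by linarith, ?_⟩, ?_⟩
  · intro x e he
    -- polarisation
    have hb : ∀ i j, |val g x (e i) (e j) - val g₀ x (e i) (e j)| ≤ ε' := by
      intro i j
      have h1 := hclose x (e i + e j)
      have h2 := hclose x (e i - e j)
      have s1 := g.symm x (e i) (e j)
      have s2 := g₀.symm x (e i) (e j)
      have hii := he i i
      have hjj := he j j
      rw [if_pos rfl] at hii hjj
      unfold val at hii hjj ⊢
      simp only [map_add, map_sub, _root_.add_apply, _root_.sub_apply] at h1 h2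
      rw [← s1, ← s2, hii, hjj, abs_le] at h1 h2
      rw [abs_le]
      constructor <;> linarith [h1.1, h1.2, h2.1, h2.2]
    apply Real.sqrt_le_iff.2
    refine ⟨by positivity, ?_⟩
    have hs : ∀ i j, (val g x (e i) (e j) - val g₀ x (e i) (e j)) ^ 2 ≤ ε' ^ 2 := by
      intro i j
      rw [sq_le_sq, abs_of_pos hε'0]
      exact hb i j
    simp only [Fin.sum_univ_two]
    have := hs 0 0
    have := hs 0 1
    have := hs 1 0
    have := hs 1 1
    linarith
  · rintro ⟨f, hf, hiso⟩
    exact hno R3 (by simp) f hf hiso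

end Q198.Moat
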