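import Pool.Agent.Q198.Moat.Ruling

/-!
# Isometric immersions of a flat disc into `ℝ³`
-/

set_option autoImplicit false

open Set Filter Topology

namespace Q198.Moat

variable {V : Type*} [NormedAddCommGroup V] [InnerProductSpace ℝ V]

theorem D_inner {e : ℂ} {u v : ℂ → V} {z : ℂ} (hu : DifferentiableAt ℝ u z)
    (hv : DifferentiableAt ℝ v z) :
    D e (fun y => inner ℝ (u y) (v y)) z = inner ℝ (D e u z) (v z) + inner ℝ (u z) (D e v z) := by
  unfold D
  rw [fderiv_inner_apply ℝ hu hv]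
  ring

/-- `F` is of class `C⁴` and isometric on the closed unit disc. -/
structure FlatMap (F : ℂ → V) : Prop where
  smooth : ContDiff ℝ 4 F
  iso : ∀ z ∈ Metric.closedBall (0 : ℂ) 1, ∀ v w : ℂ,
    inner ℝ (fderiv ℝ F z v) (fderiv ℝ F z w) = inner ℝ v w

namespace FlatMap

variable {F : ℂ → V} (h : FlatMap F)
include h

theorem c1 (e : ℂ) : ContDiff ℝ 3 (D e F) := contDiff_D (n := 3) e h.smooth
theorem c2 (e e' : ℂ) : ContDiff ℝ 2 (D e (D e' F)) := contDiff_D (n := 2) e (h.c1 e')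
theorem diff : Differentiable ℝ F := h.smooth.differentiable (by norm_num)
theorem d1 (e : ℂ) : Differentiable ℝ (D e F) := (h.c1 e).differentiable (by norm_num)
theorem d2 (e e' : ℂ) : Differentiable ℝ (D e (D e' F)) :=
  (h.c2 e e').differentiable (by norm_num)

theorem comm (e e' : ℂ) : D e (D e' F) = D e' (D e F) :=
  funext fun z => D_comm e e' (h.smooth.of_le (by norm_num)) z

theorem comm3 (x e e' : ℂ) : D x (D e (D e' F)) = D e (D x (D e' F)) :=
  funext fun z => D_comm x e ((h.c1 e').of_le (by norm_num)) z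

theorem iso' {z : ℂ} (hz : z ∈ Metric.ball (0 : ℂ) 1) (v w : ℂ) :
    inner ℝ (D v F z) (D w F z) = inner ℝ v w :=
  h.iso z (Metric.ball_subset_closedBall hz) v w

theorem tang {z : ℂ} (hz : z ∈ Metric.ball (0 : ℂ) 1) (x y w : ℂ) :
    inner ℝ (D x (D y F) z) (D w F z) = 0 := by
  have key : ∀ x e e' : ℂ, inner ℝ (D x (D e F) z) (D e' F z) +
      inner ℝ (D x (D e' F) z) (D e F z) = 0 := by
    intro x e e'
    have h1 := D_congr (e := x) Metric.isOpen_ball (u := fun y => inner ℝ (D e F y) (D e' F y))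
      (v := fun _ => inner ℝ e e') (fun y hy => h.iso' hy e e') hz
    rw [D_inner (h.d1 e z) (h.d1 e' z)] at h1
    have h2 : D x (fun _ : ℂ => (inner ℝ e e' : ℝ)) z = 0 := by simp [D]
    rw [h2, real_inner_comm (D x (D e' F) z)] at h1
    exact h1
  have s : ∀ x y w : ℂ, inner ℝ (D x (D y F) z) (D w F z) =
      inner ℝ (D y (D x F) z) (D w F z) := by
    intro x y w; rw [h.comm x y]
  have k1 := key x y w
  have k2 := s x w y
  have k3 := key w x y
  have k4 := s w y x
  have k5 := key y w x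
  have k6 := s y x w
  linarith

theorem gauss {z : ℂ} (hz : z ∈ Metric.ball (0 : ℂ) 1) (e e' : ℂ) :
    inner ℝ (D e (D e F) z) (D e' (D e' F) z) = inner ℝ (D e (D e' F) z) (D e (D e' F) z) := by
  have key : ∀ x a b y : ℂ, inner ℝ (D a (D b F) z) (D x (D y F) z) =
      - inner ℝ (D x (D a (D b F)) z) (D y F z) := by
    intro x a b y
    have h1 := D_congr (e := x) Metric.isOpen_ball
      (u := fun w => inner ℝ (D a (D b F) w) (D y F w))
      (v := fun _ => (0 : ℝ)) (fun w hw => h.tang hw a b y) hz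
    rw [D_inner (h.d2 a b z) (h.d1 y z)] at h1
    have h2 : D x (fun _ : ℂ => (0 : ℝ)) z = 0 := by simp [D]
    rw [h2] at h1
    linarith
  rw [key e' e e e', key e e e' e', h.comm3 e' e e, h.comm e' e]

theorem injective {z : ℂ} (hz : z ∈ Metric.ball (0 : ℂ) 1) :
    Function.Injective (fderiv ℝ F z) := by
  intro v w hvw
  have h1 : fderiv ℝ F z (v - w) = 0 := by rw [map_sub, hvw, sub_self]
  have h2 := h.iso' hz (v - w) (v - w)
  unfold D at h2
  rw [h1, inner_zero_left, eq_comm, inner_self_eq_zero] at h2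
  exact sub_eq_zero.1 h2

theorem normal (hV : Module.finrank ℝ V = 3) {z : ℂ} (hz : z ∈ Metric.ball (0 : ℂ) 1) :
    ∃ N : V, N ≠ 0 ∧ ∀ x y : ℂ, ∃ k : ℝ, D x (D y F) z = k • N := by
  have : FiniteDimensional ℝ V := Module.finite_of_finrank_eq_succ hV
  set K : Submodule ℝ V := LinearMap.range (fderiv ℝ F z).toLinearMap with hK
  have hK2 : Module.finrank ℝ K = 2 := by
    rw [hK, LinearMap.finrank_range_of_inj (h.injective hz), Complex.finrank_real_complex]
  have hK1 : Module.finrank ℝ Kᗮ = 1 := by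
    have := K.finrank_add_finrank_orthogonal
    omega
  obtain ⟨N, hN0, hN⟩ := finrank_eq_one_iff'.1 hK1
  refine ⟨N, fun h0 => hN0 (Subtype.ext h0), fun x y => ?_⟩
  have hmem : D x (D y F) z ∈ Kᗮ := by
    rw [Submodule.mem_orthogonal]
    rintro _ ⟨w, rfl⟩
    have := h.tang hz x y w
    rw [real_inner_comm] at this
    exact this
  obtain ⟨k, hk⟩ := hN ⟨_, hmem⟩
  exact ⟨k, by rw [← Subtype.coe_inj] at hk; exact hk.symm⟩

theorem det_zero (hV : Module.finrank ℝ V = 3) {z : ℂ} (hz : z ∈ Metric.ball (0 : ℂ) 1)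
    (e e' : ℂ) (v : V) :
    inner ℝ (D e (D e F) z) v * inner ℝ (D e' (D e' F) z) v =
      inner ℝ (D e (D e' F) z) v * inner ℝ (D e (D e' F) z) v := by
  obtain ⟨N, hN0, hN⟩ := h.normal hV hz
  obtain ⟨k1, hk1⟩ := hN e e
  obtain ⟨k2, hk2⟩ := hN e e'
  obtain ⟨k3, hk3⟩ := hN e' e'
  have h1 := h.gauss hz e e'
  rw [hk1, hk2, hk3] at h1 ⊢
  simp only [inner_smul_left, inner_smul_right, RCLike.conj_to_real] at h1 ⊢
  have hNN : (inner ℝ N N : ℝ) ≠ 0 := by
    rw [Ne, inner_self_eq_zero]; exact hN0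
  have h2 : k1 * k3 = k2 * k2 := by
    have : (k1 * k3 - k2 * k2) * inner ℝ N N = 0 := by linarith
    have := (mul_eq_zero.1 this).resolve_right hNN
    linarith
  linear_combination (inner ℝ N v * inner ℝ N v) * h2

/-- propagation along a ruling -/
theorem ruling_line (hV : Module.finrank ℝ V = 3) {z e e' : ℂ} {T : ℝ}
    (hseg : ∀ t ∈ Icc 0 T, z + t • e ∈ Metric.ball (0 : ℂ) 1)
    (ha : D e (D e F) z = 0) (hb : D e (D e' F) z = 0) (hc : D e' (D e' F) z ≠ 0)
    {t : ℝ} (ht : t ∈ Icc 0 T) : D e (D e F) (z + t • e) = 0 := by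
  set v : V := D e' (D e' F) z with hv
  have hinner : ∀ u : ℂ → V, ContDiff ℝ 2 u → ContDiff ℝ 2 (fun y => (inner ℝ (u y) v : ℝ)) :=
    fun u hu => hu.inner ℝ contDiff_const
  have hDin : ∀ (x : ℂ) (u : ℂ → V), Differentiable ℝ u → ∀ y,
      D x (fun y => (inner ℝ (u y) v : ℝ)) y = inner ℝ (D x u y) v := by
    intro x u hu y
    rw [D_inner (hu y) (differentiableAt_const v)]
    simp [D]
  have hz : z ∈ Metric.ball (0 : ℂ) 1 := by
    have := hseg 0 ⟨le_rfl, ht.1.trans ht.2⟩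
    simpa using this
  have h1 := ruling (a := fun y => (inner ℝ (D e (D e F) y) v : ℝ))
    (b := fun y => (inner ℝ (D e (D e' F) y) v : ℝ))
    (c := fun y => (inner ℝ (D e' (D e' F) y) v : ℝ)) (e := e) (e' := e')
    (hinner _ (h.c2 e e)) (hinner _ (h.c2 e e')) (hinner _ (h.c2 e' e'))
    (by
      intro y
      rw [hDin _ _ (h.d2 e e), hDin _ _ (h.d2 e e'), h.comm3 e' e e, h.comm e' e])
    (by
      intro y
      rw [hDin _ _ (h.d2 e e'), hDin _ _ (h.d2 e' e'), h.comm3 e' e e'])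
    Metric.isOpen_ball (fun y hy => h.det_zero hV hy e e' v) hseg
    (by simp only [ha, inner_zero_left]) (by simp only [hb, inner_zero_left])
    (by
      simp only [← hv]
      rw [Ne, inner_self_eq_zero]; exact hc) t ht
  obtain ⟨N, hN0, hN⟩ := h.normal hV (hseg t ht)
  obtain ⟨k1, hk1⟩ := hN e e
  obtain ⟨k3, hk3⟩ := hN e' e'
  rw [hk1, hk3] at h1
  rw [hk1]
  simp only [inner_smul_left, RCLike.conj_to_real] at h1
  have h3 : (inner ℝ N v : ℝ) ≠ 0 := fun h0 => h1.2.2 (by rw [h0, mul_zero])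
  rw [(mul_eq_zero.1 h1.1).resolve_right h3, zero_smul]

theorem D_eq (x y z : ℂ) : D x (D y F) z = fderiv ℝ (fderiv ℝ F) z x y := by
  have hd : DifferentiableAt ℝ (fderiv ℝ F) z :=
    ((h.smooth.fderiv_right (m := 1) (by norm_num)).differentiable (by norm_num)) z
  unfold D
  rw [fderiv_clm_apply hd (differentiableAt_const y)]
  simp

/-- the null direction -/
theorem null_direction (hV : Module.finrank ℝ V = 3) {z : ℂ} (hz : z ∈ Metric.ball (0 : ℂ) 1) :
    ∃ e : ℂ, ‖e‖ = 1 ∧ ∀ y, D e (D y F) z = 0 := by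
  obtain ⟨N, hN0, hN⟩ := h.normal hV hz
  obtain ⟨k1, hk1⟩ := hN 1 1
  obtain ⟨k2, hk2⟩ := hN 1 Complex.I
  obtain ⟨k3, hk3⟩ := hN Complex.I Complex.I
  have hk2' : D Complex.I (D 1 F) z = k2 • N := by rw [h.comm]; exact hk2
  have hdet : k1 * k3 = k2 * k2 := by
    have h1 := h.gauss hz 1 Complex.I
    rw [hk1, hk2, hk3] at h1
    simp only [inner_smul_left, inner_smul_right, RCLike.conj_to_real] at h1
    have hNN : (inner ℝ N N : ℝ) ≠ 0 := by
      rw [Ne, inner_self_eq_zero]; exact hN0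
    have : (k1 * k3 - k2 * k2) * inner ℝ N N = 0 := by linarith
    have := (mul_eq_zero.1 this).resolve_right hNN
    linarith
  -- a nonzero null vector
  have hex : ∃ e : ℂ, e ≠ 0 ∧ ∀ y, D e (D y F) z = 0 := by
    have gen : ∀ s t : ℝ, s * k1 + t * k2 = 0 → s * k2 + t * k3 = 0 →
        ∀ y, D ((s : ℂ) + t * Complex.I) (D y F) z = 0 := by
      intro s t h1 h2 y
      have e1 : ((s : ℂ) + t * Complex.I) = s • (1 : ℂ) + t • Complex.I := by
        simp [Algebra.smul_def]
      have e2 : y = y.re • (1 : ℂ) + y.im • Complex.I := by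
        simp [Algebra.smul_def]
      rw [h.D_eq, e1]
      have f1 : fderiv ℝ (fderiv ℝ F) z (s • (1 : ℂ) + t • Complex.I) y =
          s • (fderiv ℝ (fderiv ℝ F) z 1 y) + t • (fderiv ℝ (fderiv ℝ F) z Complex.I y) := by
        simp only [map_add, map_smul, _root_.add_apply, _root_.smul_apply]
      have f2 : ∀ x : ℂ, fderiv ℝ (fderiv ℝ F) z x y =
          y.re • (fderiv ℝ (fderiv ℝ F) z x 1) + y.im • (fderiv ℝ (fderiv ℝ F) z x Complex.I) := by
        intro x
        conv_lhs => rw [e2]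
        rw [map_add, map_smul, map_smul]
      rw [f1, f2, f2, ← h.D_eq, ← h.D_eq, ← h.D_eq, ← h.D_eq, hk1, hk2, hk2', hk3]
      simp only [smul_smul, ← add_smul]
      have : s * (y.re * k1 + y.im * k2) + t * (y.re * k2 + y.im * k3) = 0 := by
        linear_combination y.re * h1 + y.im * h2
      rw [this, zero_smul]
    by_cases hk : k2 = 0 ∧ k3 = 0
    · refine ⟨((0 : ℝ) : ℂ) + (1 : ℝ) * Complex.I, by simp, gen 0 1 ?_ ?_⟩
      · rw [hk.1]; ring
      · rw [hk.2]; ring
    · refine ⟨((k3 : ℝ) : ℂ) + (-k2 : ℝ) * Complex.I, ?_, gen k3 (-k2) ?_ ?_⟩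
      · intro h0
        apply hk
        have h1 := congrArg Complex.re h0
        have h2 := congrArg Complex.im h0
        simp at h1 h2
        exact ⟨h2, h1⟩
      · linear_combination hdet
      · ring
  obtain ⟨e, he, hnull⟩ := hex
  have hne : ‖e‖ ≠ 0 := norm_ne_zero_iff.2 he
  refine ⟨(‖e‖⁻¹ : ℝ) • e, ?_, fun y => ?_⟩
  · rw [norm_smul, norm_inv, norm_norm, inv_mul_cancel₀ hne]
  · have := hnull y
    rw [h.D_eq] at this ⊢
    rw [map_smul, _root_.smul_apply, this, smul_zero]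

/-- a direction with nonzero normal curvature -/
theorem curved_direction {z : ℂ} (hne : ∃ x y, D x (D y F) z ≠ 0) :
    ∃ e' : ℂ, D e' (D e' F) z ≠ 0 := by
  by_contra hcon
  push Not at hcon
  obtain ⟨x, y, hxy⟩ := hne
  apply hxy
  have h1 := hcon (x + y)
  have h2 := hcon x
  have h3 := hcon y
  have h4 : D x (D y F) z = D y (D x F) z := by rw [h.comm]
  rw [h.D_eq] at h1 h2 h3 h4 ⊢
  rw [h.D_eq] at h4
  simp only [map_add, _root_.add_apply] at h1
  rw [h2, h3, ← h4, zero_add, add_zero, ← two_smul ℝ] at h1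
  exact (smul_eq_zero.1 h1).resolve_left two_ne_zero

end FlatMap

end Q198.Moat
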