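import Pool.Agent.Q198.Moat.Pull

/-!
# Modifying a Riemannian metric near a point
-/

set_option autoImplicit false

open Set Filter Topology Bundle Manifold
open scoped Manifold ContDiff

noncomputable section

namespace Q198.Moat

set_option maxSynthPendingDepth 3

/-- a positive definite form on a plane is the square of the absolute value of a complex
coordinate -/
theorem exists_equiv {E : Type*} [AddCommGroup E] [Module ℝ E] (hE : Module.finrank ℝ E = 2)
    (B : E →ₗ[ℝ] E →ₗ[ℝ] ℝ) (symm : ∀ v w, B v w = B w v) (pos : ∀ v, v ≠ 0 → 0 < B v v) :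
    ∃ A : E ≃ₗ[ℝ] ℂ, ∀ w, ‖A w‖ ^ 2 = B w w := by
  have : FiniteDimensional ℝ E := Module.finite_of_finrank_eq_succ hE
  have nonneg : ∀ v, 0 ≤ B v v := by
    intro v
    by_cases h : v = 0
    · rw [h]; simp
    · exact (pos v h).le
  let core : InnerProductSpace.Core ℝ E :=
    { inner := fun v w => B v w
      conj_inner_symm := fun v w => by simpa using symm w v
      re_inner_nonneg := fun v => by simpa using nonneg v
      add_left := fun u v w => by simp
      smul_left := fun u v r => by simp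
      definite := fun v hv => by
        by_contra h
        exact (pos v h).ne' hv }
  let _ : NormedAddCommGroup E := core.toNormedAddCommGroup
  let _ : InnerProductSpace ℝ E := InnerProductSpace.ofCore core.toCore
  let b := (stdOrthonormalBasis ℝ E).reindex (finCongr hE)
  let A : E ≃ₗᵢ[ℝ] ℂ := b.equiv Complex.orthonormalBasisOneI (Equiv.refl _)
  refine ⟨A.toLinearEquiv, fun w => ?_⟩
  have h1 : ‖A w‖ = ‖w‖ := A.norm_map w
  have h2 : ‖w‖ ^ 2 = inner ℝ w w := (real_inner_self_eq_norm_sq w).symm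
  change ‖A w‖ ^ 2 = _
  rw [h1, h2]
  rfl

lemma bounded_of_pos {E : Type*} [NormedAddCommGroup E] [NormedSpace ℝ E]
    [FiniteDimensional ℝ E] (φ : E →L[ℝ] E →L[ℝ] ℝ)
    (h : ∀ v, v ≠ 0 → 0 < φ v v) : Bornology.IsVonNBounded ℝ {v : E | φ v v < 1} := by
  rw [NormedSpace.isVonNBounded_iff]
  rcases subsingleton_or_nontrivial E with hE | hE
  · exact (Set.toFinite _).isBounded
  · have : ProperSpace E := FiniteDimensional.proper ℝ E
    have hc : IsCompact (Metric.sphere (0 : E) 1) := isCompact_sphere 0 1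
    have hne : (Metric.sphere (0 : E) 1).Nonempty := by
      obtain ⟨v, hv⟩ := exists_norm_eq E (zero_le_one' ℝ)
      exact ⟨v, by simpa using hv⟩
    have hcont : Continuous (fun v : E => φ v v) := φ.continuous.clm_apply continuous_id
    obtain ⟨v₀, hv₀, hmin⟩ := hc.exists_isMinOn hne hcont.continuousOn
    have hv₀ne : v₀ ≠ 0 := by
      rintro rfl
      simp at hv₀
    have hpos := h v₀ hv₀ne
    set m := φ v₀ v₀ with hm
    rw [isBounded_iff_forall_norm_le]
    refine ⟨Real.sqrt (1 / m), fun v hv => ?_⟩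
    by_cases hv0 : v = 0
    · subst hv0
      simp
    have hn : 0 < ‖v‖ := norm_pos_iff.mpr hv0
    have h1 : m ≤ φ (‖v‖⁻¹ • v) (‖v‖⁻¹ • v) := by
      apply hmin
      simp [norm_smul, hn.ne']
    have h2 : φ (‖v‖⁻¹ • v) (‖v‖⁻¹ • v) = φ v v / ‖v‖ ^ 2 := by
      simp only [map_smul, smul_apply, smul_eq_mul]
      field_simp
    rw [h2, le_div_iff₀ (by positivity)] at h1
    have h3 : φ v v < 1 := hv
    apply Real.le_sqrt_of_sq_le
    rw [le_div_iff₀ hpos]
    linarith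

variable {E : Type*} [NormedAddCommGroup E] [NormedSpace ℝ E] [FiniteDimensional ℝ E]
  {H : Type*} [TopologicalSpace H] {I : ModelWithCorners ℝ E H}
  {M : Type*} [TopologicalSpace M] [ChartedSpace H M] [IsManifold I ∞ M]

variable (I M) in
/-- smooth Riemannian metrics -/
abbrev Met : Type _ := ContMDiffRiemannianMetric I ∞ E (fun x : M => TangentSpace I x)

variable (I) in
/-- the pull back of the inner product, as a tensor field on `M` -/
def pbT (Ψ : M → ℂ) (x : M) : TangentSpace I x →L[ℝ] TangentSpace I x →L[ℝ] ℝ :=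
  (pb I Ψ x : E →L[ℝ] E →L[ℝ] ℝ)

omit [FiniteDimensional ℝ E] [IsManifold I ∞ M] in
lemma pbT_apply (Ψ : M → ℂ) (x : M) (v w : TangentSpace I x) :
    pbT I Ψ x v w = inner ℝ (dM I Ψ x v) (dM I Ψ x w) := rfl

lemma contMDiff_pbT {Ψ : M → ℂ} (hΨ : ContMDiff I 𝓘(ℝ, ℂ) ∞ Ψ) :
    ContMDiff I (I.prod 𝓘(ℝ, E →L[ℝ] E →L[ℝ] ℝ)) ∞
    (fun b : M ↦ TotalSpace.mk' (E →L[ℝ] E →L[ℝ] ℝ)
      (E := fun b => TangentSpace I b →L[ℝ] TangentSpace I b →L[ℝ] ℝ) b (pbT I Ψ b)) :=
  contMDiff_pb hΨ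

/-- the metric `α g₀ + β Ψ^* g_eucl` -/
def mix (g₀ : Met I M) (α β : M → ℝ) (hα : ContMDiff I 𝓘(ℝ) ∞ α) (hβ : ContMDiff I 𝓘(ℝ) ∞ β)
    (Ψ : M → ℂ) (hΨ : ContMDiff I 𝓘(ℝ, ℂ) ∞ Ψ)
    (hpos : ∀ (x : M) (v : TangentSpace I x), v ≠ 0 →
      0 < α x * g₀.inner x v v + β x * pbT I Ψ x v v) : Met I M where
  inner x := α x • g₀.inner x + β x • pbT I Ψ x
  symm x v w := by
    change α x * g₀.inner x v w + β x * pbT I Ψ x v w = α x * g₀.inner x w v + β x * pbT I Ψ x w v
    rw [g₀.symm, pbT_apply, pbT_apply, real_inner_comm]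
  pos x v hv := hpos x v hv
  isVonNBounded x := bounded_of_pos (E := E)
    (α x • g₀.inner x + β x • pbT I Ψ x) (fun v hv => hpos x v hv)
  contMDiff := (hα.smul_section g₀.contMDiff).add_section (hβ.smul_section (contMDiff_pbT hΨ))

lemma mix_apply (g₀ : Met I M) (α β : M → ℝ) (hα : ContMDiff I 𝓘(ℝ) ∞ α)
    (hβ : ContMDiff I 𝓘(ℝ) ∞ β)
    (Ψ : M → ℂ) (hΨ : ContMDiff I 𝓘(ℝ, ℂ) ∞ Ψ)
    (hpos : ∀ (x : M) (v : TangentSpace I x), v ≠ 0 →
      0 < α x * g₀.inner x v v + β x * pbT I Ψ x v v) (x : M) (v w : TangentSpace I x) :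
    (mix g₀ α β hα hβ Ψ hΨ hpos).inner x v w =
      α x * g₀.inner x v w + β x * pbT I Ψ x v w := rfl

end Q198.Moat
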