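import Pool.Agent.Q198.Moat.Metric

/-!
# A metric is almost Euclidean near a point, in suitable coordinates
-/

set_option autoImplicit false

open Set Filter Topology Bundle Manifold
open scoped Manifold ContDiff

noncomputable section

namespace Q198.Moat

set_option maxSynthPendingDepth 3

variable {E : Type*} [NormedAddCommGroup E] [NormedSpace ℝ E] [FiniteDimensional ℝ E]
  {H : Type*} [TopologicalSpace H] {I : ModelWithCorners ℝ E H}
  {M : Type*} [TopologicalSpace M] [ChartedSpace H M] [IsManifold I ∞ M]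

variable (I) in
/-- the derivative of the preferred chart at `x₀` -/
def dchart (x₀ x : M) : TangentSpace I x →L[ℝ] E :=
  mfderiv I 𝓘(ℝ, E) (extChartAt I x₀) x

/-- the coordinate expression of a metric -/
def coordForm (g : Met I M) (x₀ x : M) : E →L[ℝ] E →L[ℝ] ℝ :=
  (trivializationAt (E →L[ℝ] E →L[ℝ] ℝ)
    (fun b : M => TangentSpace I b →L[ℝ] TangentSpace I b →L[ℝ] ℝ) x₀ ⟨x, g.inner x⟩).2

omit [FiniteDimensional ℝ E] in
lemma coordForm_continuousAt (g : Met I M) (x₀ : M) : ContinuousAt (coordForm g x₀) x₀ := by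
  have h := g.contMDiff x₀
  rw [contMDiffAt_section] at h
  exact h.continuousAt

omit [FiniteDimensional ℝ E] in
lemma coordForm_apply (g : Met I M) {x₀ x : M} (hx : x ∈ (chartAt H x₀).source) (v w : E) :
    coordForm g x₀ x v w =
      g.inner x ((trivializationAt E (TangentSpace I) x₀).symmL ℝ x v)
        ((trivializationAt E (TangentSpace I) x₀).symmL ℝ x w) := by
  have hy : x ∈ (trivializationAt E (TangentSpace I) x₀).baseSet := by simpa using hx
  have hy2 : x ∈ (trivializationAt (E →L[ℝ] ℝ)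
      (fun x : M => TangentSpace I x →L[ℝ] ℝ) x₀).baseSet := by
    simpa using hx
  simp [coordForm, hom_trivializationAt_apply, ContinuousLinearMap.inCoordinates,
    Trivialization.coe_linearMapAt_of_mem _ hy2]

omit [FiniteDimensional ℝ E] in
lemma coordForm_dchart (g : Met I M) {x₀ x : M} (hx : x ∈ (chartAt H x₀).source)
    (v w : TangentSpace I x) :
    coordForm g x₀ x (dchart I x₀ x v) (dchart I x₀ x w) = g.inner x v w := by
  have hy : x ∈ (trivializationAt E (TangentSpace I) x₀).baseSet := by simpa using hx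
  rw [coordForm_apply g hx]
  unfold dchart
  rw [← TangentBundle.continuousLinearMapAt_trivializationAt hx,
    Trivialization.symmL_continuousLinearMapAt _ hy,
    Trivialization.symmL_continuousLinearMapAt _ hy]

theorem near (hE : Module.finrank ℝ E = 2) (g : Met I M) (x₀ : M) :
    ∃ A : E ≃L[ℝ] ℂ, ∀ ε : ℝ, 0 < ε → ∀ᶠ x in 𝓝 x₀, ∀ v : TangentSpace I x,
      |g.inner x v v - ‖A (dchart I x₀ x v)‖ ^ 2| ≤ ε * ‖A (dchart I x₀ x v)‖ ^ 2 := by
  have hx₀ : x₀ ∈ (chartAt H x₀).source := mem_chart_source H x₀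
  set B₀ := coordForm g x₀ x₀ with hB₀
  have hsymm : ∀ v w, B₀ v w = B₀ w v := by
    intro v w
    rw [hB₀, coordForm_apply g hx₀, coordForm_apply g hx₀, g.symm]
  have hpos : ∀ v, v ≠ 0 → 0 < B₀ v v := by
    intro v hv
    rw [hB₀, coordForm_apply g hx₀]
    apply g.pos
    intro h0
    apply hv
    have hy : x₀ ∈ (trivializationAt E (TangentSpace I) x₀).baseSet := by simp
    have := (trivializationAt E (TangentSpace I) x₀).continuousLinearMapAt_symmL (R := ℝ) hy v
    rw [h0, map_zero] at this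
    exact this.symm
  let Bl : E →ₗ[ℝ] E →ₗ[ℝ] ℝ :=
    LinearMap.mk₂ ℝ (fun v w => B₀ v w) (by intros; simp) (by intros; simp) (by intros; simp)
      (by intros; simp)
  obtain ⟨A', hA'⟩ := exists_equiv hE Bl hsymm hpos
  set A : E ≃L[ℝ] ℂ := A'.toContinuousLinearEquiv with hA
  have hAn : ∀ w, ‖A w‖ ^ 2 = B₀ w w := hA'
  refine ⟨A, fun ε hε => ?_⟩
  set C : ℝ := ‖(A.symm : ℂ →L[ℝ] E)‖ with hC
  have hC0 : 0 ≤ C := norm_nonneg _
  have hCw : ∀ w : E, ‖w‖ ≤ C * ‖A w‖ := by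
    intro w
    have := (A.symm : ℂ →L[ℝ] E).le_opNorm (A w)
    simpa using this
  have hcont := coordForm_continuousAt g x₀
  have h1 : ∀ᶠ x in 𝓝 x₀, ‖coordForm g x₀ x - B₀‖ < ε / (C ^ 2 + 1) := by
    have h2 : ∀ᶠ x in 𝓝 x₀, dist (coordForm g x₀ x) (coordForm g x₀ x₀) < ε / (C ^ 2 + 1) :=
      hcont.eventually (Metric.ball_mem_nhds _ (by positivity))
    filter_upwards [h2] with x hx
    rwa [dist_eq_norm] at hx
  have h2 : ∀ᶠ x in 𝓝 x₀, x ∈ (chartAt H x₀).source := chart_source_mem_nhds H x₀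
  filter_upwards [h1, h2] with x hx1 hx2 v
  set w := dchart I x₀ x v with hw
  rw [← coordForm_dchart g hx2, ← hw, hAn]
  have h3 : coordForm g x₀ x w w - B₀ w w = (coordForm g x₀ x - B₀) w w := by
    simp
  rw [h3, ← Real.norm_eq_abs]
  have h4 : ‖(coordForm g x₀ x - B₀) w w‖ ≤ ‖coordForm g x₀ x - B₀‖ * ‖w‖ * ‖w‖ :=
    (coordForm g x₀ x - B₀).le_opNorm₂ w w
  have h5 := hCw w
  have h6 : ‖w‖ * ‖w‖ ≤ C ^ 2 * ‖A w‖ ^ 2 := by
    have := norm_nonneg w
    nlinarith
  rw [← hAn]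
  calc ‖(coordForm g x₀ x - B₀) w w‖ ≤ ‖coordForm g x₀ x - B₀‖ * (‖w‖ * ‖w‖) := by
        rw [← mul_assoc]; exact h4
    _ ≤ ε / (C ^ 2 + 1) * (C ^ 2 * ‖A w‖ ^ 2) :=
        mul_le_mul hx1.le h6 (by positivity) (by positivity)
    _ = ε * (C ^ 2 / (C ^ 2 + 1)) * ‖A w‖ ^ 2 := by ring
    _ ≤ ε * 1 * ‖A w‖ ^ 2 := by
        gcongr
        rw [div_le_one (by positivity)]
        linarith
    _ = ε * ‖A w‖ ^ 2 := by ring

end Q198.Moat
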