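import Mathlib

/-!
# Pulling back an inner product under a smooth map is a smooth section
-/

set_option autoImplicit false

open Set Filter Topology Bundle Manifold
open scoped Manifold ContDiff

noncomputable section

namespace Q198.Moat

set_option maxSynthPendingDepth 3

variable {E : Type*} [NormedAddCommGroup E] [NormedSpace ℝ E] [FiniteDimensional ℝ E]
  {H : Type*} [TopologicalSpace H] {I : ModelWithCorners ℝ E H}
  {M : Type*} [TopologicalSpace M] [ChartedSpace H M]
  {W : Type*} [NormedAddCommGroup W] [InnerProductSpace ℝ W]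

variable (W) in
/-- the inner product as a bilinear map -/
def ip : W →L[ℝ] W →L[ℝ] ℝ := innerSL ℝ

omit [FiniteDimensional ℝ E] in
variable (I) in
/-- the derivative of a map into a vector space -/
def dM (Ψ : M → W) (x : M) : E →L[ℝ] W := mfderiv I 𝓘(ℝ, W) Ψ x

variable (I) in
/-- the pull back of the inner product -/
def pb (Ψ : M → W) (x : M) : E →L[ℝ] E →L[ℝ] ℝ := (ip W).bilinearComp (dM I Ψ x) (dM I Ψ x)

omit [FiniteDimensional ℝ E] in
lemma pb_apply (Ψ : M → W) (x : M) (v w : E) :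
    pb I Ψ x v w = inner ℝ (dM I Ψ x v) (dM I Ψ x w) := rfl

lemma contDiff_comp2 : ContDiff ℝ ∞
    (fun p : E →L[ℝ] W => (ip W).bilinearComp p p) := by
  rw [contDiff_clm_apply_iff]
  intro v
  rw [contDiff_clm_apply_iff]
  intro w
  have : (fun p : E →L[ℝ] W => (ip W).bilinearComp p p v w) =
    fun p => inner ℝ (p v) (p w) := rfl
  rw [this]
  exact (contDiff_id.clm_apply contDiff_const).inner ℝ (contDiff_id.clm_apply contDiff_const)

variable [IsManifold I ∞ M]

lemma contMDiff_pb {Ψ : M → W} (hΨ : ContMDiff I 𝓘(ℝ, W) ∞ Ψ) :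
    ContMDiff I (I.prod 𝓘(ℝ, E →L[ℝ] E →L[ℝ] ℝ)) ∞
    (fun b : M ↦ TotalSpace.mk' (E →L[ℝ] E →L[ℝ] ℝ)
      (E := fun b => TangentSpace I b →L[ℝ] TangentSpace I b →L[ℝ] ℝ) b (pb I Ψ b : E →L[ℝ] E →L[ℝ] ℝ)) := by
  intro x
  rw [contMDiffAt_section]
  have h := ContMDiffAt.mfderiv_const (hΨ x) (m := ∞) (by simp)
  have h2 : ContMDiffAt I 𝓘(ℝ, E →L[ℝ] E →L[ℝ] ℝ) ∞ (fun b =>
    (fun p : E →L[ℝ] W => (ip W).bilinearComp p p)
    (inTangentCoordinates I 𝓘(ℝ, W) id Ψ
      (fun x => mfderiv I 𝓘(ℝ, W) Ψ x) x b)) x :=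
    contDiff_comp2.contMDiff.contMDiffAt.comp x h
  refine h2.congr_of_eventuallyEq ?_
  have hx := (trivializationAt E (TangentSpace I) x).open_baseSet.mem_nhds
    (mem_baseSet_trivializationAt E (TangentSpace I) x)
  filter_upwards [hx] with y hy
  ext v w
  have hy2 : y ∈ (trivializationAt (E →L[ℝ] ℝ)
      (fun x : M => TangentSpace I x →L[ℝ] ℝ) x).baseSet := by
    simpa using hy
  simp [hom_trivializationAt_apply, ContinuousLinearMap.inCoordinates, inTangentCoordinates,
    Trivialization.coe_linearMapAt_of_mem _ hy2]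
  rfl

end Q198.Moat
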