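import Mathlib

/-!
# Rulings of functions with degenerate Hessian

If `a c = b²`, `a_y = b_x`, `b_y = c_x` on an open set of the plane, and `a = b = 0`, `c ≠ 0`
at a point, then `a = b = 0` and `c ≠ 0` on the whole segment in the direction `x` through this
point (as long as it stays in the open set).
-/

set_option autoImplicit false

open Set Filter Topology

namespace Q198.Moat

variable {W : Type*} [NormedAddCommGroup W] [NormedSpace ℝ W]

/-- the derivative of `u` in the direction `e` -/
noncomputable def D (e : ℂ) (u : ℂ → W) (z : ℂ) : W := fderiv ℝ u z e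

theorem contDiff_D {n : ℕ} (e : ℂ) {u : ℂ → W} (hu : ContDiff ℝ (n + 1 : ℕ) u) :
    ContDiff ℝ n (D e u) := by
  have : ContDiff ℝ n (fderiv ℝ u) := hu.fderiv_right (by norm_cast)
  exact this.clm_apply contDiff_const

theorem D_comm (e e' : ℂ) {u : ℂ → W} (hu : ContDiff ℝ 2 u) (z : ℂ) :
    D e (D e' u) z = D e' (D e u) z := by
  have hs : IsSymmSndFDerivAt ℝ u z := hu.contDiffAt.isSymmSndFDerivAt (by simp)
  have hd : DifferentiableAt ℝ (fderiv ℝ u) z :=
    ((hu.fderiv_right (m := 1) (by norm_num)).differentiable (by norm_num)) z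
  have key : ∀ v w : ℂ, fderiv ℝ (fun q => fderiv ℝ u q v) z w =
      fderiv ℝ (fderiv ℝ u) z w v := by
    intro v w
    rw [fderiv_clm_apply hd (differentiableAt_const v)]
    simp
  unfold D
  rw [key, key]
  exact hs _ _

theorem D_congr {e : ℂ} {u v : ℂ → W} {U : Set ℂ} (hU : IsOpen U) (h : ∀ z ∈ U, u z = v z)
    {z : ℂ} (hz : z ∈ U) : D e u z = D e v z := by
  have : u =ᶠ[𝓝 z] v := by
    filter_upwards [hU.mem_nhds hz] with y hy using h y hy
  unfold D
  rw [this.fderiv_eq]

theorem D_mul {e : ℂ} {u v : ℂ → ℝ} {z : ℂ} (hu : DifferentiableAt ℝ u z)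
    (hv : DifferentiableAt ℝ v z) :
    D e (fun y => u y * v y) z = D e u z * v z + u z * D e v z := by
  have h : HasFDerivAt (fun y => u y * v y) _ z := hu.hasFDerivAt.mul hv.hasFDerivAt
  unfold D
  rw [h.fderiv]
  simp
  ring

theorem D_add {e : ℂ} {u v : ℂ → ℝ} {z : ℂ} (hu : DifferentiableAt ℝ u z)
    (hv : DifferentiableAt ℝ v z) :
    D e (fun y => u y + v y) z = D e u z + D e v z := by
  have h : HasFDerivAt (fun y => u y + v y) _ z := hu.hasFDerivAt.add hv.hasFDerivAt
  unfold D
  rw [h.fderiv]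
  simp

/-- the derivative along a line -/
theorem hasDerivAt_line {u : ℂ → W} (hu : Differentiable ℝ u) (z e : ℂ) (t : ℝ) :
    HasDerivAt (fun s : ℝ => u (z + s • e)) (D e u (z + t • e)) t := by
  have h1 : HasDerivAt (fun s : ℝ => z + s • e) e t := by
    simpa using ((hasDerivAt_id t).smul_const e).const_add z
  exact (hu (z + t • e)).hasFDerivAt.comp_hasDerivAt t h1

section core

variable {a b c : ℂ → ℝ} {e e' : ℂ} {U : Set ℂ}

/-- the first differential identity -/
theorem ident1 (ha : ContDiff ℝ 2 a) (hb : ContDiff ℝ 2 b) (hc : ContDiff ℝ 2 c)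
    (h1 : ∀ z, D e' a z = D e b z) (hU : IsOpen U) (hG : ∀ z ∈ U, a z * c z = b z * b z)
    {z : ℂ} (hz : z ∈ U) :
    D e b z * c z ^ 2 = b z * (2 * D e' b z * c z - b z * D e' c z) := by
  have da := ha.differentiable (by norm_num) z
  have db := hb.differentiable (by norm_num) z
  have dc := hc.differentiable (by norm_num) z
  have h2 := D_congr (e := e') hU hG hz
  rw [D_mul da dc, D_mul db db, h1] at h2
  have h3 := hG z hz
  linear_combination (c z) * h2 - (D e' c z) * h3

/-- the second differential identity -/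
theorem ident2 (ha : ContDiff ℝ 2 a) (hb : ContDiff ℝ 2 b) (hc : ContDiff ℝ 2 c)
    (h1 : ∀ z, D e' a z = D e b z) (h2 : ∀ z, D e' b z = D e c z)
    (hU : IsOpen U) (hG : ∀ z ∈ U, a z * c z = b z * b z)
    {z : ℂ} (hz : z ∈ U) (ha0 : a z = 0) (hb0 : b z = 0) (hc0 : c z ≠ 0) :
    c z * D e (D e c) z = 2 * (D e c z) ^ 2 := by
  have da := ha.differentiable (by norm_num)
  have db := hb.differentiable (by norm_num)
  have dc := hc.differentiable (by norm_num)
  have da' : Differentiable ℝ (D e' a) :=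
    (contDiff_D (n := 1) e' ha).differentiable (by norm_num)
  have db' : Differentiable ℝ (D e' b) :=
    (contDiff_D (n := 1) e' hb).differentiable (by norm_num)
  have dc' : Differentiable ℝ (D e' c) :=
    (contDiff_D (n := 1) e' hc).differentiable (by norm_num)
  have e1 : ∀ y ∈ U, D e' a y * c y + a y * D e' c y = D e' b y * b y + b y * D e' b y := by
    intro y hy
    have := D_congr (e := e') hU hG hy
    rwa [D_mul (da y) (dc y), D_mul (db y) (db y)] at this
  have e2 := D_congr (e := e') hU e1 hz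
  rw [D_add ((da' z).fun_mul (dc z)) ((da z).fun_mul (dc' z)),
    D_add ((db' z).fun_mul (db z)) ((db z).fun_mul (db' z)), D_mul (da' z) (dc z),
    D_mul (da z) (dc' z),
    D_mul (db' z) (db z), D_mul (db z) (db' z)] at e2
  have e3 : D e' (D e' a) z = D e (D e c) z := by
    have : D e' a = D e b := funext h1
    rw [this, D_comm e' e hb]
    have : D e' b = D e c := funext h2
    rw [this]
  have e4 := e1 z hz
  rw [ha0, hb0] at e4
  have e5 : D e' a z = 0 := by
    have : D e' a z * c z = 0 := by linarith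
    exact (mul_eq_zero.1 this).resolve_right hc0
  rw [e3, e5, ha0, hb0, h2] at e2
  linarith

/-- the local step: vanishing propagates a little bit to the right -/
theorem step (ha : ContDiff ℝ 2 a) (hb : ContDiff ℝ 2 b) (hc : ContDiff ℝ 2 c)
    (h1 : ∀ z, D e' a z = D e b z) (h2 : ∀ z, D e' b z = D e c z)
    (hU : IsOpen U) (hG : ∀ z ∈ U, a z * c z = b z * b z)
    {z : ℂ} {t α β : ℝ} (hz : z + t • e ∈ U) (hb0 : b (z + t • e) = 0)
    (hcα : c (z + t • e) * (α + β * t) = 1)
    (hcβ : D e c (z + t • e) + β * c (z + t • e) ^ 2 = 0) :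
    ∃ r > 0, ∀ s ∈ Icc t (t + r), a (z + s • e) = 0 ∧ b (z + s • e) = 0 ∧
      c (z + s • e) * (α + β * s) = 1 ∧ D e c (z + s • e) + β * c (z + s • e) ^ 2 = 0 := by
  have hc0 : c (z + t • e) ≠ 0 := by
    intro h; rw [h, zero_mul] at hcα; exact zero_ne_one hcα
  have db := hb.differentiable (by norm_num)
  have dc := hc.differentiable (by norm_num)
  have cc : Continuous c := hc.continuous
  have cline : Continuous (fun s : ℝ => z + s • e) := by fun_prop
  have hnb : ∀ᶠ s in 𝓝 t, z + s • e ∈ U ∧ c (z + s • e) ≠ 0 := by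
    have o1 : IsOpen {y | y ∈ U ∧ c y ≠ 0} := hU.inter (isOpen_ne_fun cc continuous_const)
    exact cline.continuousAt.eventually (o1.mem_nhds ⟨hz, hc0⟩)
  obtain ⟨r₀, hr₀, hball⟩ := Metric.eventually_nhds_iff.1 hnb
  set r := r₀ / 2 with hr
  have hrpos : 0 < r := by positivity
  have hgood : ∀ s ∈ Icc t (t + r), z + s • e ∈ U ∧ c (z + s • e) ≠ 0 := by
    intro s hs
    apply hball
    rw [Real.dist_eq, abs_of_nonneg (by linarith [hs.1])]
    linarith [hs.2]
  have cDb' : Continuous (D e' b) := (contDiff_D (n := 1) e' hb).continuous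
  have cDc' : Continuous (D e' c) := (contDiff_D (n := 1) e' hc).continuous
  have cDc : Continuous (D e c) := (contDiff_D (n := 1) e hc).continuous
  have dDc : Differentiable ℝ (D e c) := (contDiff_D (n := 1) e hc).differentiable (by norm_num)
  -- the coefficient
  set κ : ℝ → ℝ := fun s => (2 * D e' b (z + s • e) * c (z + s • e) -
    b (z + s • e) * D e' c (z + s • e)) / c (z + s • e) ^ 2 with hκ
  have hκc : ContinuousOn κ (Icc t (t + r)) := by
    apply ContinuousOn.div
    · apply Continuous.continuousOn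
      exact ((continuous_const.mul (cDb'.comp cline)).mul (cc.comp cline)).sub
        ((hb.continuous.comp cline).mul (cDc'.comp cline))
    · exact ((cc.comp cline).pow 2).continuousOn
    · intro s hs
      exact pow_ne_zero 2 (hgood s hs).2
  obtain ⟨K, hK⟩ := isCompact_Icc.exists_bound_of_continuousOn hκc
  have hder : ∀ s ∈ Icc t (t + r), D e b (z + s • e) = κ s * b (z + s • e) := by
    intro s hs
    have h3 := ident1 ha hb hc h1 hU hG (hgood s hs).1
    have h4 := (hgood s hs).2
    rw [hκ]
    field_simp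
    linarith
  have hbz : ∀ s ∈ Icc t (t + r), b (z + s • e) = 0 := by
    apply eq_zero_of_abs_deriv_le_mul_abs_self_of_eq_zero_right
      (f := fun s : ℝ => b (z + s • e)) (f' := fun s : ℝ => D e b (z + s • e)) (K := K)
      (hb.continuous.comp cline).continuousOn
    · intro s _
      exact (hasDerivAt_line db z e s).hasDerivWithinAt
    · exact hb0
    · intro s hs
      rw [hder s ⟨hs.1, hs.2.le⟩, norm_mul]
      exact mul_le_mul_of_nonneg_right (hK s ⟨hs.1, hs.2.le⟩) (norm_nonneg _)
  have haz : ∀ s ∈ Icc t (t + r), a (z + s • e) = 0 := by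
    intro s hs
    have h3 := hG _ (hgood s hs).1
    rw [hbz s hs, mul_zero] at h3
    exact (mul_eq_zero.1 h3).resolve_right (hgood s hs).2
  -- the inverse of `c` is affine
  set g : ℝ → ℝ := fun s => D e c (z + s • e) / c (z + s • e) ^ 2 with hg
  have hgd : ∀ s ∈ Icc t (t + r), HasDerivAt g 0 s := by
    intro s hs
    have h4 := (hgood s hs).2
    have d1 := hasDerivAt_line dDc z e s
    have d2 := (hasDerivAt_line dc z e s).fun_pow 2
    have d3 := d1.fun_div d2 (pow_ne_zero 2 h4)
    have h5 := ident2 ha hb hc h1 h2 hU hG (hgood s hs).1 (haz s hs) (hbz s hs) h4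
    refine d3.congr_deriv ?_
    have : D e (D e c) (z + s • e) = 2 * (D e c (z + s • e)) ^ 2 / c (z + s • e) := by
      field_simp
      linarith
    rw [this]
    field_simp
    ring
  have hgc : ∀ s ∈ Icc t (t + r), g s = g t := by
    apply constant_of_has_deriv_right_zero
    · intro s hs
      exact (hgd s hs).continuousAt.continuousWithinAt
    · intro s hs
      exact (hgd s ⟨hs.1, hs.2.le⟩).hasDerivWithinAt
  have hgt : g t = -β := by
    rw [hg]
    simp only
    rw [div_eq_iff (pow_ne_zero 2 hc0)]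
    linarith
  have hDc : ∀ s ∈ Icc t (t + r), D e c (z + s • e) + β * c (z + s • e) ^ 2 = 0 := by
    intro s hs
    have h3 := hgc s hs
    rw [hgt, hg] at h3
    simp only at h3
    rw [div_eq_iff (pow_ne_zero 2 (hgood s hs).2)] at h3
    linarith
  set k : ℝ → ℝ := fun s => (c (z + s • e))⁻¹ - β * s with hk
  have hkd : ∀ s ∈ Icc t (t + r), HasDerivAt k 0 s := by
    intro s hs
    have h4 := (hgood s hs).2
    have d2 := (hasDerivAt_line dc z e s).fun_inv h4
    have d3 : HasDerivAt (fun s : ℝ => β * s) β s := by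
      simpa using (hasDerivAt_id s).const_mul β
    have d4 := d2.fun_sub d3
    refine d4.congr_deriv ?_
    have h5 := hDc s hs
    field_simp
    linarith
  have hkc : ∀ s ∈ Icc t (t + r), k s = k t := by
    apply constant_of_has_deriv_right_zero
    · intro s hs
      exact (hkd s hs).continuousAt.continuousWithinAt
    · intro s hs
      exact (hkd s ⟨hs.1, hs.2.le⟩).hasDerivWithinAt
  have hkt : k t = α := by
    have : (c (z + t • e))⁻¹ = α + β * t := by
      rw [inv_eq_iff_eq_inv, ← one_div, eq_div_iff]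
      · exact hcα
      · intro h; rw [h, mul_zero] at hcα; exact zero_ne_one hcα
    rw [hk]
    simp only
    rw [this]
    ring
  refine ⟨r, hrpos, fun s hs => ⟨haz s hs, hbz s hs, ?_, hDc s hs⟩⟩
  have h3 := hkc s hs
  rw [hkt, hk] at h3
  simp only at h3
  have h4 : α + β * s = (c (z + s • e))⁻¹ := by linarith
  rw [h4, mul_inv_cancel₀ (hgood s hs).2]

/-- **Ruling lemma.** -/
theorem ruling (ha : ContDiff ℝ 2 a) (hb : ContDiff ℝ 2 b) (hc : ContDiff ℝ 2 c)
    (h1 : ∀ z, D e' a z = D e b z) (h2 : ∀ z, D e' b z = D e c z)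
    (hU : IsOpen U) (hG : ∀ z ∈ U, a z * c z = b z * b z)
    {z : ℂ} {T : ℝ} (hseg : ∀ t ∈ Icc 0 T, z + t • e ∈ U)
    (ha0 : a z = 0) (hb0 : b z = 0) (hc0 : c z ≠ 0) :
    ∀ t ∈ Icc 0 T, a (z + t • e) = 0 ∧ b (z + t • e) = 0 ∧ c (z + t • e) ≠ 0 := by
  set α : ℝ := (c z)⁻¹ with hα
  set β : ℝ := -D e c z / c z ^ 2 with hβ
  set S : Set ℝ := {t | a (z + t • e) = 0 ∧ b (z + t • e) = 0 ∧
      c (z + t • e) * (α + β * t) = 1 ∧ D e c (z + t • e) + β * c (z + t • e) ^ 2 = 0} with hS
  have cline : Continuous (fun s : ℝ => z + s • e) := by fun_prop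
  have cDc : Continuous (D e c) := (contDiff_D (n := 1) e hc).continuous
  have hclosed : IsClosed S := by
    refine IsClosed.inter (isClosed_eq (ha.continuous.comp cline) continuous_const) ?_
    refine IsClosed.inter (isClosed_eq (hb.continuous.comp cline) continuous_const) ?_
    refine IsClosed.inter (isClosed_eq ((hc.continuous.comp cline).mul (by fun_prop))
      continuous_const) ?_
    exact isClosed_eq ((cDc.comp cline).add
      (continuous_const.mul ((hc.continuous.comp cline).pow 2))) continuous_const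
  have h0 : (0 : ℝ) ∈ S := by
    simp only [hS, mem_ofPred_eq, zero_smul, add_zero, mul_zero]
    refine ⟨ha0, hb0, ?_, ?_⟩
    · rw [hα]; exact mul_inv_cancel₀ hc0
    · rw [hβ]; field_simp; ring
  have hsub : Icc 0 T ⊆ S := by
    refine IsClosed.Icc_subset_of_forall_mem_nhdsWithin (hclosed.inter isClosed_Icc) h0 ?_
    rintro t ⟨htS, ht⟩
    obtain ⟨r, hr, hstep⟩ := step ha hb hc h1 h2 hU hG (hseg t ⟨ht.1, ht.2.le⟩) htS.2.1
      htS.2.2.1 htS.2.2.2
    have : Ioo t (t + r) ∈ 𝓝[>] t := Ioo_mem_nhdsGT (by linarith)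
    filter_upwards [this] with s hs
    exact hstep s ⟨hs.1.le, hs.2.le⟩
  intro t ht
  have := hsub ht
  refine ⟨this.1, this.2.1, ?_⟩
  intro h
  have h3 := this.2.2.1
  rw [h, zero_mul] at h3
  exact zero_ne_one h3

end core

end Q198.Moat
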