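import Pool.Agent.Q198.Moat.Cap

/-!
# Shortcuts around a flat disc
-/

set_option autoImplicit false

open Set Filter Topology

namespace Q198.Moat

variable {V : Type*} [NormedAddCommGroup V] [InnerProductSpace ℝ V]

/-- the angle between two points of the unit circle -/
theorem exists_angle {p q : ℂ} (hp : ‖p‖ = 1) (hq : ‖q‖ = 1) :
    ∃ θ : ℝ, p = Complex.exp (θ * Complex.I) * q ∧
      |θ| ≤ ‖p - q‖ + 3 / 10 * ‖p - q‖ ^ 3 := by
  have hq0 : q ≠ 0 := by intro h; rw [h, norm_zero] at hq; exact zero_ne_one hq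
  have hpq1 : ‖p / q‖ = 1 := by rw [norm_div, hp, hq, div_one]
  set θ : ℝ := (p / q).arg with hθ
  have h1 : Complex.exp (θ * Complex.I) = p / q := by
    have := Complex.norm_mul_exp_arg_mul_I (p / q)
    rw [hpq1] at this
    simpa using this
  have h2 : p = Complex.exp (θ * Complex.I) * q := by rw [h1]; field_simp
  refine ⟨θ, h2, ?_⟩
  have h3 : ‖p - q‖ = 2 * Real.sin (|θ| / 2) := by
    have e1 : p - q = (Complex.exp (Complex.I * θ) - 1) * q := by
      rw [mul_comm Complex.I]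
      rw [sub_mul, one_mul, ← h2]
    rw [e1, norm_mul, hq, mul_one, Complex.norm_exp_I_mul_ofReal_sub_one]
    have hsin : 0 ≤ Real.sin (|θ| / 2) := by
      apply Real.sin_nonneg_of_nonneg_of_le_pi (by positivity)
      have := Complex.abs_arg_le_pi (p / q)
      rw [← hθ] at this
      linarith [abs_nonneg θ]
    rw [norm_mul, Real.norm_of_nonneg (by norm_num : (0 : ℝ) ≤ 2)]
    congr 1
    rcases abs_cases θ with ⟨h4, _⟩ | ⟨h4, _⟩
    · rw [h4] at hsin ⊢
      rw [Real.norm_of_nonneg hsin]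
    · rw [h4] at hsin ⊢
      rw [neg_div, Real.sin_neg] at hsin ⊢
      rw [Real.norm_of_nonpos (by linarith)]
  set x : ℝ := |θ| / 2 with hx
  have hx0 : 0 ≤ x := by positivity
  have hxpi : x ≤ Real.pi / 2 := by
    have := Complex.abs_arg_le_pi (p / q)
    rw [← hθ] at this
    rw [hx]; linarith
  have h4 := Real.mul_le_sin hx0 hxpi
  set l : ℝ := ‖p - q‖ with hl
  have hl0 : 0 ≤ l := norm_nonneg _
  have hpi := Real.pi_lt_d2
  have hpi0 := Real.pi_pos
  have h5 : x ≤ 4 / 5 * l := by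
    have h6 : x ≤ Real.pi / 2 * Real.sin x := by
      have : 2 / Real.pi * x * (Real.pi / 2) = x := by field_simp
      nlinarith
    have h7 : Real.sin x = l / 2 := by linarith
    rw [h7] at h6
    nlinarith
  rcases eq_or_lt_of_le hx0 with h6 | h6
  · have : |θ| = 0 := by linarith
    rw [this]; positivity
  · have h7 := Real.sin_gt_sub_cube h6
    have h8 : x ^ 3 ≤ (4 / 5 * l) ^ 3 := pow_le_pow_left₀ hx0 h5 3
    have h9 : |θ| = 2 * x := by rw [hx]; ring
    have h10 : 0 ≤ l ^ 3 := by positivity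
    rw [h9]
    nlinarith

/-- `F` is isometric on the closed unit disc, short on the disc of radius `1 + δ`, and strictly
short on its boundary circle -/
structure MoatMap (κ δ : ℝ) (F : ℂ → V) : Prop extends FlatMap F where
  short : ∀ z : ℂ, ‖z‖ ≤ 1 + δ → ∀ v : ℂ, ‖fderiv ℝ F z v‖ ≤ ‖v‖
  shorter : ∀ z : ℂ, ‖z‖ = 1 + δ → ∀ v : ℂ, ‖fderiv ℝ F z v‖ ≤ κ * ‖v‖

namespace MoatMap

variable {F : ℂ → V} {κ δ : ℝ} (h : MoatMap κ δ F)
include h

theorem radial (hδ : 0 ≤ δ) {q : ℂ} (hq : ‖q‖ = 1) {s : ℝ} (hs0 : 0 ≤ s) (hs1 : s ≤ 1) :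
    ‖F ((1 + δ) • q) - F (s • q)‖ ≤ 1 + δ - s := by
  have hdiff : Differentiable ℝ F := h.toFlatMap.diff
  have := Convex.norm_image_sub_le_of_norm_fderiv_le (𝕜 := ℝ) (f := F) (C := 1)
    (s := Metric.closedBall (0 : ℂ) (1 + δ)) (fun x _ => hdiff x)
    (fun x hx => ContinuousLinearMap.opNorm_le_bound _ zero_le_one fun v => by
      rw [one_mul]; exact h.short x (mem_closedBall_zero_iff.1 hx) v)
    (convex_closedBall 0 _) (x := s • q) (y := (1 + δ) • q)
    (by rw [mem_closedBall_zero_iff, norm_smul, hq, Real.norm_of_nonneg hs0]; linarith)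
    (by rw [mem_closedBall_zero_iff, norm_smul, hq, Real.norm_of_nonneg (by linarith)]; linarith)
  refine this.trans (le_of_eq ?_)
  rw [← sub_smul, norm_smul, hq, Real.norm_of_nonneg (by linarith)]
  ring

theorem arc (hδ : 0 ≤ δ) {q : ℂ} (hq : ‖q‖ = 1) (θ : ℝ) :
    ‖F ((1 + δ) • (Complex.exp (θ * Complex.I) * q)) - F ((1 + δ) • q)‖ ≤
      κ * (1 + δ) * |θ| := by
  have hdiff : Differentiable ℝ F := h.toFlatMap.diff
  set γ : ℝ → ℂ := fun t => (1 + δ) • (Complex.exp ((t * θ : ℝ) * Complex.I) * q) with hγ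
  have hγd : ∀ t : ℝ, HasDerivAt γ (((θ : ℂ) * Complex.I) * γ t) t := by
    intro t
    have h1 : HasDerivAt (fun t : ℝ => ((t * θ : ℝ) : ℂ)) (θ : ℂ) t := by
      have : HasDerivAt (fun t : ℝ => t * θ) θ t := by
        simpa using (hasDerivAt_id t).mul_const θ
      exact this.ofReal_comp
    have h2 : HasDerivAt (fun t : ℝ => Complex.exp (((t * θ : ℝ) : ℂ) * Complex.I))
        (Complex.exp (((t * θ : ℝ) : ℂ) * Complex.I) * ((θ : ℂ) * Complex.I)) t :=
      (h1.mul_const Complex.I).cexp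
    have h3 := (h2.mul_const q).const_smul (1 + δ)
    refine h3.congr_deriv ?_
    rw [hγ]
    simp only [Complex.real_smul]
    ring
  have hγn : ∀ t : ℝ, ‖γ t‖ = 1 + δ := by
    intro t
    rw [hγ]
    simp only [norm_smul, norm_mul, hq, Complex.norm_exp_ofReal_mul_I, mul_one]
    rw [Real.norm_of_nonneg (by linarith)]
  have hd : ∀ t : ℝ, HasDerivAt (fun t => F (γ t))
      (fderiv ℝ F (γ t) (((θ : ℂ) * Complex.I) * γ t)) t := fun t =>
    (hdiff (γ t)).hasFDerivAt.comp_hasDerivAt t (hγd t)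
  have hb : ∀ t ∈ Ico (0 : ℝ) 1, ‖fderiv ℝ F (γ t) (((θ : ℂ) * Complex.I) * γ t)‖ ≤
      κ * (1 + δ) * |θ| := by
    intro t _
    refine (h.shorter _ (hγn t) _).trans (le_of_eq ?_)
    rw [norm_mul, norm_mul, hγn, Complex.norm_I, Complex.norm_real, Real.norm_eq_abs]
    ring
  have := norm_image_sub_le_of_norm_deriv_le_segment_01' (f := fun t => F (γ t))
    (fun t _ => (hd t).hasDerivWithinAt) hb
  have e1 : γ 1 = (1 + δ) • (Complex.exp (θ * Complex.I) * q) := by simp [hγ]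
  have e0 : γ 0 = (1 + δ) • q := by simp [hγ]
  rwa [e1, e0] at this

theorem path (hδ : 0 ≤ δ) (hκ : 0 ≤ κ) {p q : ℂ} (hp : ‖p‖ = 1) (hq : ‖q‖ = 1)
    {s : ℝ} (hs0 : 0 ≤ s) (hs1 : s ≤ 1) :
    ‖F (s • p) - F (s • q)‖ ≤ 2 * (1 + δ - s) +
      κ * (1 + δ) * (‖p - q‖ + 3 / 10 * ‖p - q‖ ^ 3) := by
  obtain ⟨θ, hθ, hθl⟩ := exists_angle hp hq
  have h1 := h.radial hδ hp hs0 hs1
  have h2 := h.radial hδ hq hs0 hs1
  have h3 := h.arc hδ hq θ
  rw [← hθ] at h3
  have h4 : F (s • p) - F (s • q) = -(F ((1 + δ) • p) - F (s • p)) +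
      (F ((1 + δ) • p) - F ((1 + δ) • q)) + (F ((1 + δ) • q) - F (s • q)) := by abel
  rw [h4]
  refine (norm_add_le _ _).trans ?_
  refine (add_le_add (norm_add_le _ _) le_rfl).trans ?_
  rw [norm_neg]
  have h5 : κ * (1 + δ) * |θ| ≤ κ * (1 + δ) * (‖p - q‖ + 3 / 10 * ‖p - q‖ ^ 3) :=
    mul_le_mul_of_nonneg_left hθl (by positivity)
  linarith

end MoatMap

/-- **A flat disc with a moat does not exist.** -/
theorem MoatMap.false {F : ℂ → V} (hV : Module.finrank ℝ V = 3) {ε : ℝ} (hε : 0 < ε)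
    (hε1 : ε ≤ 1) (h : MoatMap (1 - ε) (ε ^ 2 / 32) F) : False := by
  set δ : ℝ := ε ^ 2 / 32 with hδ
  have hδ0 : 0 ≤ δ := by positivity
  have hδε : δ ≤ ε / 8 := by rw [hδ]; nlinarith
  have hκ : 0 ≤ 1 - ε := by linarith
  -- the basic estimate
  have key : ∀ l : ℝ, 0 ≤ l → l ≤ ε / 2 →
      (1 - ε) * (1 + δ) * (l + 3 / 10 * l ^ 3) ≤ (1 - 7 / 10 * ε) * l := by
    intro l hl0 hl1
    have h1 : (1 - ε) * (1 + δ) ≤ 1 - 7 / 8 * ε := by nlinarith
    have h2 : 3 / 10 * l ^ 2 ≤ 3 / 40 * ε := by nlinarith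
    have h3 : 0 ≤ 1 - 7 / 8 * ε := by linarith
    calc (1 - ε) * (1 + δ) * (l + 3 / 10 * l ^ 3)
        ≤ (1 - 7 / 8 * ε) * (l + 3 / 10 * l ^ 3) :=
          mul_le_mul_of_nonneg_right h1 (by positivity)
      _ = ((1 - 7 / 8 * ε) * (1 + 3 / 10 * l ^ 2)) * l := by ring
      _ ≤ ((1 - 7 / 8 * ε) * (1 + 3 / 40 * ε)) * l := by gcongr
      _ ≤ (1 - 7 / 10 * ε) * l := by
          apply mul_le_mul_of_nonneg_right _ hl0
          nlinarith
  set s₀ : ℝ := Real.sqrt (1 - ε ^ 2 / 64) with hs₀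
  have hs₀sq : s₀ ^ 2 = 1 - (ε / 4) ^ 2 / 4 := by
    rw [hs₀, Real.sq_sqrt (by nlinarith)]; ring
  have hs₀nn : 0 ≤ s₀ := Real.sqrt_nonneg _
  have hs₀pos : 0 < s₀ := Real.sqrt_pos.2 (by nlinarith)
  have hs₀1 : s₀ ≤ 1 := by nlinarith
  have hs₀low : 1 - ε ^ 2 / 64 ≤ s₀ := by nlinarith
  refine h.toFlatMap.no_flat hV (l₀ := ε / 4) (l₁ := ε / 2) (s₀ := s₀)
    (μ₁ := Real.sqrt (1 - ε ^ 2 / 16)) (by linarith) (by linarith) hs₀pos hs₀sq
    (Real.sqrt_nonneg _) (by rw [Real.sq_sqrt (by nlinarith)]; ring) ?_ ?_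
  · intro p q hp hq hl0 hl1 hcon
    have h1 := h.path hδ0 hκ hp hq (s := 1) zero_le_one le_rfl
    rw [one_smul, one_smul, hcon] at h1
    have h2 := key ‖p - q‖ (norm_nonneg _) hl1
    have h3 : 0 < 7 / 10 * ε * ‖p - q‖ - 2 * δ := by rw [hδ]; nlinarith
    nlinarith
  · intro u hu
    set c : ℂ := (s₀ : ℂ) + (ε / 8 : ℝ) * Complex.I with hc
    set c' : ℂ := (s₀ : ℂ) - (ε / 8 : ℝ) * Complex.I with hc'
    have hcn : ‖c‖ = 1 := by
      have h1 : ‖c‖ ^ 2 = 1 ^ 2 := by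
        rw [Complex.sq_norm, Complex.normSq_apply, hc]
        simp
        nlinarith
      exact (pow_left_inj₀ (norm_nonneg _) zero_le_one two_ne_zero).1 h1
    have hcn' : ‖c'‖ = 1 := by
      have h1 : ‖c'‖ ^ 2 = 1 ^ 2 := by
        rw [Complex.sq_norm, Complex.normSq_apply, hc']
        simp
        nlinarith
      exact (pow_left_inj₀ (norm_nonneg _) zero_le_one two_ne_zero).1 h1
    have hp : ‖c * u‖ = 1 := by rw [norm_mul, hcn, hu, mul_one]
    have hq : ‖c' * u‖ = 1 := by rw [norm_mul, hcn', hu, mul_one]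
    have hpq : ‖c * u - c' * u‖ = ε / 4 := by
      have : c * u - c' * u = ((ε / 4 : ℝ) : ℂ) * (Complex.I * u) := by
        rw [hc, hc']; push_cast; ring
      rw [this, norm_mul, norm_mul, Complex.norm_I, hu, Complex.norm_real,
        Real.norm_of_nonneg (by positivity)]
      ring
    have huu : u.re * u.re + u.im * u.im = 1 := by
      have := Complex.sq_norm u
      rw [hu, Complex.normSq_apply] at this
      linarith
    have hin : ∀ w : ℂ, (inner ℝ (s₀ • (w * u)) u : ℝ) = s₀ * w.re := by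
      intro w
      rw [inner_smul_left]
      simp only [RCLike.conj_to_real]
      congr 1
      simp [Complex.inner]
      linear_combination (w.re) * huu
    have hμ : Real.sqrt (1 - ε ^ 2 / 16) < s₀ * s₀ := by
      rw [Real.sqrt_lt' (by positivity)]
      have : s₀ * s₀ = 1 - ε ^ 2 / 64 := by nlinarith
      rw [this]
      nlinarith [sq_nonneg (ε ^ 2)]
    refine ⟨s₀ • (c * u), s₀ • (c' * u), ?_, ?_, ?_, ?_, ?_⟩
    · rw [norm_smul, hp, mul_one, Real.norm_of_nonneg hs₀nn]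
    · rw [norm_smul, hq, mul_one, Real.norm_of_nonneg hs₀nn]
    · rw [hin]; simpa [hc] using hμ
    · rw [hin]; simpa [hc'] using hμ
    · intro hcon
      have h1 := h.path hδ0 hκ hp hq (s := s₀) hs₀nn hs₀1
      rw [hcon, ← smul_sub, norm_smul, Real.norm_of_nonneg hs₀nn, hpq] at h1
      have h2 := key (ε / 4) (by positivity) (by linarith)
      have h3 : 1 - s₀ ≤ ε ^ 2 / 64 := by linarith
      nlinarith

end Q198.Moat
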